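import Pool.Agent.Helper74.C3.Frame2

/-!
# Block C3-B: diagonal matrices with nonzero trace are values

PROOF. `three_forms` (Three.lean) with `X = Fin 3 → Ω`, `L.toSubfield` (`1 ≠ -1` in `L`, char 3, so `∃ s ∈ L, s ≠ 0 ∧ s ≠ 1`: `s = -1`),
`R = RE L x` (`RE_span`, `RE.smul`), `F = (coordL x).compMultilinearMap (PF c d)`; `F` has values in `L` on `R`: `PF_mem_GE` (with `hd`) and `coord_mem`.
Three independent values: take `f ∈ R` with `trace (PF c d f) ≠ 0` (`exists_rational`). Let `S f = fun i r => f i (r + 1)` (in `R`: `InE.shift`).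
`PF c d (S f) = yM * PF c d f * yMᵀ` (conjugation: `yM_mul_hv` for every slot, and `evalML` commutes with conjugation by a unit: see
`evalML` conjugation lemmas in `Pool/Agent/Helper24/ML/*.lean`, grep `conj`), so the diagonal entries of `PF c d (S f)` are those of `PF c d f` shifted:
`D' r r = D (r+1) (r+1)`. With `(al, be, ga) = coordE x D` the coordinates of the shifted matrix are `(al + be + ga, be + 2 ga, ga)`
(`coordE_spec`, `coordE_unique`, `cs_add`). `det3 v (S v) (S S v) = ± ga ^ 3` up to multiples of `3`, and `ga = - trace ≠ 0`.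
Target `w = coordE x (diagonal (algebraMap ∘ l)) = (A - B x + C x^2, B + C x, C)` with `A, B, C ∈ K`, `C = -(l 0 + l 1 + l 2) ≠ 0`
(`A = l 0, B = l 2 - l 1`). Independence over `L`: `c0 (A - B x + C x^2) + c1 (B + C x) + c2 C = 0` gives with `indep`
`c0 C = 0`, `-c0 B + c1 C = 0`, `c0 A + c1 B + c2 C = 0`, so all `c = 0`.
Finally `coordE x (PF c d v) = w` and `PF c d v`, `diagonal _` both homogeneous of degree zero with the same diagonal (`coordE_spec`): equal.
-/

open Matrix

namespace Pool.Agent.H74C3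

open Pool.Agent.H24ML Pool.Agent.H88KL

universe u

private theorem evalML_algHom46 {K Ω : Type u} [Field K] [Field Ω] [Algebra K Ω] {m : ℕ}
    (φ : M3 Ω →ₐ[Ω] M3 Ω) (c : Equiv.Perm (Fin m) → K) (z : Fin m → M3 Ω) :
    evalML Ω c (fun j => φ (z j)) = φ (evalML Ω c z) := by
  rw [evalML_apply, evalML_apply, map_sum]
  refine Finset.sum_congr rfl fun σ _ => ?_
  rw [map_smul, ← List.prod_hom, List.map_ofFn]
  rfl

/-- The shift of the indices. -/
private noncomputable def sh46 {Ω : Type u} [Field Ω] : M3 Ω →ₐ[Ω] M3 Ω :=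
  (Matrix.reindexAlgEquiv Ω Ω (Equiv.addRight (1 : Fin 3)).symm).toAlgHom

private theorem sh46_apply {Ω : Type u} [Field Ω] (A : M3 Ω) (r s : Fin 3) :
    sh46 A r s = A (r + 1) (s + 1) := rfl

private theorem sh46_hv {Ω : Type u} [Field Ω] (e : Fin 3) (v : Fin 3 → Ω) :
    sh46 (hv e v) = hv e fun r => v (r + 1) := by
  ext r s
  rw [sh46_apply, hv_apply, hv_apply]
  have h : (s + 1 = r + 1 + e) ↔ (s = r + e) := by
    rw [add_right_comm r 1 e, add_left_inj]
  by_cases h1 : s = r + e
  · rw [if_pos (h.2 h1), if_pos h1]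
  · rw [if_neg fun h2 => h1 (h.1 h2), if_neg h1]

private theorem PF_shift46 {K Ω : Type u} [Field K] [Field Ω] [Algebra K Ω] {m : ℕ}
    (c : Equiv.Perm (Fin m) → K) (d : Fin m → Fin 3) (f : Fin m → Fin 3 → Ω) (r : Fin 3) :
    PF c d (fun i r => f i (r + 1)) r r = PF c d f (r + 1) (r + 1) := by
  have h1 : evalML Ω c (fun i => hv (d i) (fun r => f i (r + 1))) =
      sh46 (evalML Ω c fun i => hv (d i) (f i)) := by
    rw [← evalML_algHom46]
    simp only [sh46_hv]
  exact congrArg (fun A : M3 Ω => A r r) h1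

private theorem coord_shift46 {Ω : Type u} [Field Ω] [CharP Ω 3] (x : Ω) {D D' : M3 Ω}
    (h : ∀ r, D' r r = D (r + 1) (r + 1)) :
    coordE x D' = ![coordE x D 0 + coordE x D 1 + coordE x D 2,
      coordE x D 1 + 2 * coordE x D 2, coordE x D 2] := by
  refine coordE_unique x D' _ _ _ fun r => ?_
  rw [h, coordE_spec x D (r + 1), cs_add, cs_one]
  ring

theorem diag_value {K Ω : Type u} [Field K] [Field Ω] [Algebra K Ω] [CharP Ω 3] [IsAlgClosed Ω]
    {m : ℕ} {L : IntermediateField K Ω} {x : Ω} (hx : x ∉ L) (hx3 : x ^ 3 - x ∈ L)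
    (c : Equiv.Perm (Fin m) → K) (d : Fin m → Fin 3) (hd : ∑ i, d i = 0) (z0 : Fin m → M3 Ω)
    (hz0 : ∀ i, Hom (d i) (z0 i)) (htr : trace (evalML Ω c z0) ≠ 0) (l : Fin 3 → K)
    (hl : l 0 + l 1 + l 2 ≠ 0) :
    ∃ z : Fin m → M3 Ω, evalML Ω c z = diagonal fun r => algebraMap K Ω (l r) := by
  have h3 := three0 (Ω := Ω)
  obtain ⟨f, hf, hft⟩ := exists_rational (L := L) (x := x) c d z0 hz0 htr
  obtain ⟨F, hF⟩ : ∃ F : MultilinearMap Ω (fun _ : Fin m => Fin 3 → Ω) (Fin 3 → Ω),
      F = (coordL x).compMultilinearMap (PF c d) := ⟨_, rfl⟩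
  have hFa : ∀ v, F v = coordE x (PF c d v) := fun v => by rw [hF]; rfl
  have hS : ∀ v : Fin m → Fin 3 → Ω, F (fun i r => v i (r + 1)) =
      ![F v 0 + F v 1 + F v 2, F v 1 + 2 * F v 2, F v 2] := by
    intro v
    rw [hFa, hFa]
    exact coord_shift46 x (PF_shift46 c d v)
  have hRS : ∀ v : Fin m → Fin 3 → Ω, (∀ i, v i ∈ RE L x) →
      ∀ i, (fun r => v i (r + 1)) ∈ RE L x := fun v hv i => InE.shift 1 (hv i)
  have hg : F f 2 ≠ 0 := by
    rw [hFa]
    simp only [coordE, Matrix.cons_val]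
    intro h
    apply hft
    rw [trace_fin_three]
    linear_combination -h
  have hw : ∀ q : Fin 3 → Ω, (∀ j, q j ∈ L.toSubfield) →
      dt q (coordE x (diagonal fun r => algebraMap K Ω (l r))) = 0 → q = 0 := by
    intro q hq h
    have hK : ∀ a : K, algebraMap K Ω a ∈ L := L.algebraMap_mem
    have hs : algebraMap K Ω (l 0) + algebraMap K Ω (l 1) + algebraMap K Ω (l 2) ≠ 0 := by
      rw [← map_add, ← map_add]
      exact fun h0 => hl ((map_eq_zero _).1 h0)
    simp only [dt, coordE, Matrix.cons_val_zero, Matrix.cons_val_one, Matrix.cons_val,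
      diagonal_apply_eq] at h
    have hq' : ∀ j, q j ∈ L := hq
    obtain ⟨h0, h1, h2⟩ := indep hx hx3
      (a := q 0 * algebraMap K Ω (l 0) + q 1 * (algebraMap K Ω (l 2) - algebraMap K Ω (l 1)) -
        q 2 * (algebraMap K Ω (l 0) + algebraMap K Ω (l 1) + algebraMap K Ω (l 2)))
      (b := -(q 0 * (algebraMap K Ω (l 2) - algebraMap K Ω (l 1))) -
        q 1 * (algebraMap K Ω (l 0) + algebraMap K Ω (l 1) + algebraMap K Ω (l 2)))
      (g := -(q 0 * (algebraMap K Ω (l 0) + algebraMap K Ω (l 1) + algebraMap K Ω (l 2))))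
      (sub_mem (add_mem (mul_mem (hq' 0) (hK _)) (mul_mem (hq' 1) (sub_mem (hK _) (hK _))))
        (mul_mem (hq' 2) (add_mem (add_mem (hK _) (hK _)) (hK _))))
      (sub_mem (neg_mem (mul_mem (hq' 0) (sub_mem (hK _) (hK _))))
        (mul_mem (hq' 1) (add_mem (add_mem (hK _) (hK _)) (hK _))))
      (neg_mem (mul_mem (hq' 0) (add_mem (add_mem (hK _) (hK _)) (hK _))))
      (by linear_combination h)
    have q0 : q 0 = 0 := by
      rcases mul_eq_zero.1 (neg_eq_zero.1 h2) with h | h
      · exact h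
      · exact absurd h hs
    rw [q0] at h1 h0
    have q1 : q 1 = 0 := by
      have : q 1 * (algebraMap K Ω (l 0) + algebraMap K Ω (l 1) + algebraMap K Ω (l 2)) = 0 := by
        linear_combination -h1
      rcases mul_eq_zero.1 this with h | h
      · exact h
      · exact absurd h hs
    rw [q1] at h0
    have q2 : q 2 = 0 := by
      have : q 2 * (algebraMap K Ω (l 0) + algebraMap K Ω (l 1) + algebraMap K Ω (l 2)) = 0 := by
        linear_combination -h0
      rcases mul_eq_zero.1 this with h | h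
      · exact h
      · exact absurd h hs
    exact ext3 q0 q1 q2
  obtain ⟨v, hvF⟩ := three_forms L.toSubfield
    ⟨-1, neg_mem (one_mem L), neg_ne_zero.2 one_ne_zero, fun h => one_ne_zero (α := Ω) (by
      linear_combination h3 + h)⟩ (RE L x) (fun a ha y hy => RE.smul ha hy) RE_span F
    (fun z hz j => by
      rw [hFa]
      have h1 := PF_mem_GE hx3 c d z hz
      rw [hd] at h1
      exact coord_mem h1 j)
    f (fun i r => f i (r + 1)) (fun i r => f i (r + 1 + 1)) hf (hRS f hf)
    (hRS _ (hRS f hf)) (by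
      have e2 := hS f
      have e3 := hS (fun i r => f i (r + 1))
      rw [e3, e2, det3_eq]
      simp only [Matrix.cons_val_zero, Matrix.cons_val_one, Matrix.cons_val]
      intro h
      have h4 : (F f 2) ^ 3 = 0 := by linear_combination -h - (F f 2) ^ 3 * h3
      exact hg (pow_eq_zero_iff (by norm_num) |>.1 h4))
    (coordE x (diagonal fun r => algebraMap K Ω (l r))) hw
  refine ⟨fun i => hv (d i) (v i), ?_⟩
  rw [← PF_apply]
  have h1 : Hom 0 (PF c d v) := by
    have := PF_hom c d v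
    rwa [hd] at this
  rw [h1.eq_diagonal]
  congr 1
  funext r
  rw [hFa] at hvF
  rw [coordE_spec x (PF c d v) r, hvF, ← coordE_spec, diagonal_apply_eq]

end Pool.Agent.H74C3
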