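import Pool.Agent.Helper74.C3.Frame2
import Pool.Agent.Helper24.ML.Sim
import Pool.Agent.Helper24.ML.Struct

/-!
# Block C3-C: non-derogatory matrices with `(trace, c2) ≠ (0, 0)` are values

A rational homogeneous value `D` which is not scalar has a slot change with value `C`, homogeneous
of degree one with nonzero entries, and then all `s D + t C` are values.
-/

open Matrix

namespace Pool.Agent.H74C3

open Pool.Agent.H24ML Pool.Agent.H88KL

universe u

section small

variable {R S : Type*} [CommRing R] [CommRing S]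

private theorem tr_map74 (f : R →+* S) (M : M3 R) : trace (M.map f) = f (trace M) := by
  simp [trace, Fin.sum_univ_three]

private theorem c2_map74 (f : R →+* S) (M : M3 R) : c2 (M.map f) = f (c2 M) := by
  simp [c2]

private theorem det_map74 (f : R →+* S) (M : M3 R) : det (M.map f) = f (det M) := by
  rw [RingHom.map_det]; rfl

private theorem cyc_map74 (f : R →+* S) (M : M3 R) (v : Fin 3 → R) :
    Cyc (M.map f) (fun i => f (v i)) = (Cyc M v).map f := by
  ext i j
  fin_cases i <;> fin_cases j <;>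
    simp [Cyc, mulVec, dotProduct, Fin.sum_univ_three, Matrix.mul_apply]

end small

/-- Values are closed under conjugation: a value with the characteristic polynomial of a
non-derogatory `A` and a cyclic vector gives `A`. -/
lemma value_of_cyc {K Ω : Type u} [Field K] [Field Ω] [Algebra K Ω] {m : ℕ}
    (c : Equiv.Perm (Fin m) → K) (A : M3 K) (v : Fin 3 → K) (hv : det (Cyc A v) ≠ 0)
    (z : Fin m → M3 Ω) (u : Fin 3 → Ω) (hu : det (Cyc (evalML Ω c z) u) ≠ 0)
    (h1 : trace (evalML Ω c z) = algebraMap K Ω (trace A))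
    (h2 : c2 (evalML Ω c z) = algebraMap K Ω (c2 A))
    (h3 : det (evalML Ω c z) = algebraMap K Ω (det A)) :
    ∃ z : Fin m → M3 Ω, evalML Ω c z = A.map (algebraMap K Ω) := by
  obtain ⟨g, hg⟩ := sim_of_cyclic (evalML Ω c z) (A.map (algebraMap K Ω)) u
    (fun i => algebraMap K Ω (v i)) hu (by
      rw [cyc_map74, det_map74]
      exact (map_ne_zero _).2 hv) (by rw [h1, tr_map74]) (by rw [h2, c2_map74])
      (by rw [h3, det_map74])
  exact ⟨fun j => (g : M3 Ω) * z j * ((g⁻¹ : (M3 Ω)ˣ) : M3 Ω), by rw [evalML_conj, hg]⟩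

section

variable {Ω : Type u} [Field Ω]

/-- A cyclic vector. -/
lemma cyc_pert {D C : M3 Ω} (hD : Hom 0 D) (hC : Hom 1 C) (h0 : C 0 1 ≠ 0) (h1 : C 1 2 ≠ 0) :
    det (Cyc (D + C) ![0, 0, 1]) ≠ 0 := by
  have d01 : D 0 1 = 0 := hD 0 1 (by decide)
  have d02 : D 0 2 = 0 := hD 0 2 (by decide)
  have d10 : D 1 0 = 0 := hD 1 0 (by decide)
  have d12 : D 1 2 = 0 := hD 1 2 (by decide)
  have d20 : D 2 0 = 0 := hD 2 0 (by decide)
  have d21 : D 2 1 = 0 := hD 2 1 (by decide)
  have c00 : C 0 0 = 0 := hC 0 0 (by decide)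
  have c02 : C 0 2 = 0 := hC 0 2 (by decide)
  have c10 : C 1 0 = 0 := hC 1 0 (by decide)
  have c11 : C 1 1 = 0 := hC 1 1 (by decide)
  have c21 : C 2 1 = 0 := hC 2 1 (by decide)
  have c22 : C 2 2 = 0 := hC 2 2 (by decide)
  have e : det (Cyc (D + C) ![0, 0, 1]) = - (C 1 2 * C 1 2 * C 0 1) ∨
      det (Cyc (D + C) ![0, 0, 1]) = C 1 2 * C 1 2 * C 0 1 := by
    left
    rw [det_fin_three]
    simp only [Cyc, mulVec, dotProduct, Fin.sum_univ_three, Matrix.add_apply, Matrix.of_apply,
      Matrix.cons_val_zero, Matrix.cons_val_one, Matrix.cons_val, d01, d02, d10, d12, d20, d21,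
      c00, c02, c10, c11, c21, c22]
    ring
  rcases e with e | e
  · rw [e]
    exact neg_ne_zero.2 (mul_ne_zero (mul_ne_zero h1 h1) h0)
  · rw [e]
    exact mul_ne_zero (mul_ne_zero h1 h1) h0

/-- A cyclic vector of a diagonal matrix. -/
lemma cyc_diag {D : M3 Ω} (hD : Hom 0 D) (h0 : D 0 0 ≠ D 1 1) (h1 : D 1 1 ≠ D 2 2)
    (h2 : D 0 0 ≠ D 2 2) : det (Cyc D ![1, 1, 1]) ≠ 0 := by
  have d01 : D 0 1 = 0 := hD 0 1 (by decide)
  have d02 : D 0 2 = 0 := hD 0 2 (by decide)
  have d10 : D 1 0 = 0 := hD 1 0 (by decide)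
  have d12 : D 1 2 = 0 := hD 1 2 (by decide)
  have d20 : D 2 0 = 0 := hD 2 0 (by decide)
  have d21 : D 2 1 = 0 := hD 2 1 (by decide)
  have e : det (Cyc D ![1, 1, 1]) = (D 1 1 - D 0 0) * (D 2 2 - D 0 0) * (D 2 2 - D 1 1) := by
    rw [det_fin_three]
    simp only [Cyc, mulVec, dotProduct, Fin.sum_univ_three, Matrix.of_apply,
      Matrix.cons_val_zero, Matrix.cons_val_one, Matrix.cons_val, d01, d02, d10, d12, d20, d21]
    ring
  rw [e]
  exact mul_ne_zero (mul_ne_zero (sub_ne_zero.2 h0.symm) (sub_ne_zero.2 h2.symm))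
    (sub_ne_zero.2 h1.symm)

end

section

variable {K Ω : Type u} [Field K] [Field Ω] [Algebra K Ω] {m : ℕ} {L : IntermediateField K Ω}
  {x : Ω}

/-- The coordinates of the shifted diagonal. -/
lemma coordE_shift [CharP Ω 3] (D D' : M3 Ω) (h : ∀ r, D' r r = D (r + 1) (r + 1)) :
    coordE x D' = ![coordE x D 0 + coordE x D 1 + coordE x D 2,
      coordE x D 1 + 2 * coordE x D 2, coordE x D 2] := by
  apply coordE_unique
  intro r
  rw [h, coordE_spec x D (r + 1), cs_add, cs_one]
  ring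

/-- The shift of all slots. -/
lemma PF_shift (c : Equiv.Perm (Fin m) → K) (d : Fin m → Fin 3) (hd : ∑ i, d i = 0)
    (f : Fin m → Fin 3 → Ω) (r : Fin 3) :
    PF c d (fun i s => f i (s + 1)) r r = PF c d f (r + 1) (r + 1) := by
  have hy1 : (yM : M3 Ω) * yMᵀ = 1 := by
    ext r s
    fin_cases r <;> fin_cases s <;> simp [yM, Matrix.mul_apply, Fin.sum_univ_three]
  have hy2 : (yM : M3 Ω)ᵀ * yM = 1 := by
    ext r s
    fin_cases r <;> fin_cases s <;> simp [yM, Matrix.mul_apply, Fin.sum_univ_three]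
  let g : (M3 Ω)ˣ := ⟨yM, yMᵀ, hy1, hy2⟩
  have h1 : PF c d (fun i s => f i (s + 1)) = yM * PF c d f * yMᵀ := by
    rw [PF_apply, PF_apply]
    have h2 := evalML_conj c (fun i => hv (d i) (f i)) g
    change evalML Ω c (fun j => yM * hv (d j) (f j) * yMᵀ) = _ at h2
    simp only [yM_mul_hv] at h2
    exact h2
  have hD : Hom 0 (PF c d f) := by
    have := PF_hom c d f
    rwa [hd] at this
  rw [h1, Matrix.mul_apply, Fin.sum_univ_three]
  simp only [Hom.yM.mul_entry, Matrix.transpose_apply]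
  have hne : ∀ a b : Fin 3, a ≠ b → PF c d f a b = 0 := fun a b hab =>
    hD a b (by rw [add_zero]; exact hab.symm)
  fin_cases r
  · simp [yM, hne]
  · simp [yM, hne]
  · simp [yM, hne]

/-- The degree one slot change of a rational nonscalar value. -/
lemma exists_C [CharP Ω 3] (hx : x ∉ L) (hx3 : x ^ 3 - x ∈ L) (c : Equiv.Perm (Fin m) → K)
    (d : Fin m → Fin 3) (hd : ∑ i, d i = 0) (f : Fin m → Fin 3 → Ω) (hf : ∀ i, f i ∈ RE L x)
    (hne : PF c d f 0 0 ≠ PF c d f 1 1) :
    ∃ C : M3 Ω, Hom 1 C ∧ C 0 1 ≠ 0 ∧ C 1 2 ≠ 0 ∧ C 2 0 ≠ 0 ∧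
      ∀ s t : Ω, ∃ z : Fin m → M3 Ω, evalML Ω c z = s • PF c d f + t • C := by
  set z : Fin m → M3 Ω := fun i => hv (d i) (f i) with hz
  have hzG : ∀ i, z i ∈ GE L x (d i) := fun i => hv_mem_GE (hf i)
  have hder := der_evalML c yM z
  have hD : Hom 0 (PF c d f) := by
    have := PF_hom c d f
    rwa [hd] at this
  have hnz : ∑ k, evalML Ω c (Function.update z k (yM * z k - z k * yM)) ≠ 0 := by
    rw [hder]
    intro h
    have h2 := congrFun (congrFun h 0) 1
    have d11 : evalML Ω c z = PF c d f := rfl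
    rw [d11, Matrix.sub_apply, Hom.yM.mul_entry, hD.mul_entry] at h2
    simp [yM] at h2
    exact hne (sub_eq_zero.1 h2).symm
  obtain ⟨k, -, hk⟩ := Finset.exists_ne_zero_of_sum_ne_zero hnz
  set w := yM * z k - z k * yM with hw
  have hwG : w ∈ GE L x (d k + 1) := by
    refine Submodule.sub_mem _ ?_ ?_
    · have := GE.mul hx3 1 (d k) yM (z k) GE.y (hzG k)
      rwa [add_comm] at this
    · exact GE.mul hx3 (d k) 1 (z k) yM (hzG k) GE.y
  have hC := evalML_GE hx3 c (Function.update z k w) (Function.update d k (d k + 1)) (by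
    intro i
    by_cases hi : i = k
    · subst hi
      rw [Function.update_self, Function.update_self]
      exact hwG
    · rw [Function.update_of_ne hi, Function.update_of_ne hi]
      exact hzG i)
  have hsum : ∑ i, Function.update d k (d k + 1) i = 1 := by
    rw [Finset.sum_update_of_mem (Finset.mem_univ k)]
    have h1 : ∑ i, d i = d k + ∑ i ∈ Finset.univ \ {k}, d i := by
      rw [← Finset.sum_update_of_mem (Finset.mem_univ k), Function.update_eq_self]
    rw [hd] at h1
    calc d k + 1 + ∑ i ∈ Finset.univ \ {k}, d i = (d k + ∑ i ∈ Finset.univ \ {k}, d i) + 1 := by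
          abel
      _ = 1 := by rw [← h1, zero_add]
  rw [hsum] at hC
  set C := evalML Ω c (Function.update z k w) with hCdef
  have hall : ∀ r : Fin 3, C r (r + 1) ≠ 0 := by
    intro r hr
    have h0 := InE.eq_zero hx hx3 hC.2 (r := r) hr
    apply hk
    ext a b
    by_cases hab : b = a + 1
    · rw [hab]
      exact h0 a
    · exact hC.1 a b hab
  refine ⟨C, hC.1, hall 0, hall 1, hall 2, fun s t => ?_⟩
  refine ⟨Function.update z k (s • z k + t • w), ?_⟩
  rw [MultilinearMap.map_update_add, MultilinearMap.map_update_smul,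
    MultilinearMap.map_update_smul, Function.update_eq_self]
  rfl

/-- An element of `Ω` which is a root of the characteristic polynomial of a matrix over the
algebraically closed field `K` is in `K`. -/
lemma mem_of_root [IsAlgClosed K] (a b g : K) (u : Ω)
    (h : u ^ 3 - algebraMap K Ω a * u ^ 2 + algebraMap K Ω b * u - algebraMap K Ω g = 0) :
    ∃ k : K, algebraMap K Ω k = u := by
  have hint : IsIntegral K u := by
    refine ⟨Polynomial.X ^ 3 - Polynomial.C a * Polynomial.X ^ 2 + Polynomial.C b * Polynomial.X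
      - Polynomial.C g, by monicity!, ?_⟩
    simpa using h
  have h1 : (minpoly K u).degree = 1 :=
    IsAlgClosed.degree_eq_one_of_irreducible K (minpoly.irreducible hint)
  obtain ⟨k, hk⟩ := minpoly.mem_range_of_degree_eq_one K u h1
  exact ⟨k, hk⟩

end

theorem nd_value {K Ω : Type u} [Field K] [IsAlgClosed K] [Field Ω] [Algebra K Ω] [CharP Ω 3]
    [IsAlgClosed Ω] {m : ℕ} {L : IntermediateField K Ω} {x : Ω} (hx : x ∉ L) (hx3 : x ^ 3 - x ∈ L)
    (hquad : ∀ a ∈ L, ∀ b ∈ L, ∃ r ∈ L, r ^ 2 + a * r + b = 0)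
    (c : Equiv.Perm (Fin m) → K) (d : Fin m → Fin 3) (hd : ∑ i, d i = 0) (z0 : Fin m → M3 Ω)
    (hz0 : ∀ i, Hom (d i) (z0 i)) (htr : trace (evalML Ω c z0) ≠ 0) (A : M3 K) (v : Fin 3 → K)
    (hv : det (Cyc A v) ≠ 0) (hA : trace A ≠ 0 ∨ c2 A ≠ 0) :
    ∃ z : Fin m → M3 Ω, evalML Ω c z = A.map (algebraMap K Ω) := by
  have h3 := three0 (Ω := Ω)
  have h2ne : (2 : Ω) ≠ 0 := by
    intro h
    have : (1 : Ω) = 0 := by linear_combination h3 - h
    exact one_ne_zero this
  obtain ⟨f0, hf0, hf0t⟩ := exists_rational (L := L) (x := x) c d z0 hz0 htr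
  have hDh : ∀ f, Hom 0 (PF c d f : M3 Ω) := by
    intro f
    have := PF_hom c d f
    rwa [hd] at this
  -- the forms
  set be : MultilinearMap Ω (fun _ : Fin m => Fin 3 → Ω) Ω :=
    (LinearMap.proj 1 ∘ₗ coordL x).compMultilinearMap (PF c d) with hbe
  set ga : MultilinearMap Ω (fun _ : Fin m => Fin 3 → Ω) Ω :=
    (LinearMap.proj 2 ∘ₗ coordL x).compMultilinearMap (PF c d) with hga
  have hbe' : ∀ f, be f = coordE x (PF c d f) 1 := fun f => rfl
  have hga' : ∀ f, ga f = coordE x (PF c d f) 2 := fun f => rfl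
  have htrga : ∀ D : M3 Ω, trace D = - coordE x D 2 := by
    intro D
    simp [coordE, trace_fin_three]
  have hga0 : ga f0 ≠ 0 := by
    intro h
    apply hf0t
    rw [htrga, ← hga', h, neg_zero]
  set f1 : Fin m → Fin 3 → Ω := fun i s => f0 i (s + 1) with hf1
  have hf1R : ∀ i, f1 i ∈ RE L x := fun i => InE.shift 1 (hf0 i)
  have hsh := coordE_shift (x := x) (PF c d f0) (PF c d f1) (PF_shift c d hd f0)
  have hb1 : be f1 = be f0 + 2 * ga f0 := by
    rw [hbe', hsh]
    rfl
  have hg1 : ga f1 = ga f0 := by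
    rw [hga', hsh]
    rfl
  obtain ⟨i, z, p, q, hz, hp, hq, hpq⟩ := exists_line (RE L x) be ga f0 f1 hf0 hf1R (by
    rw [hb1, hg1]
    intro h
    have h4 : 2 * ga f0 * ga f0 = 0 := by linear_combination -h
    exact mul_ne_zero (mul_ne_zero h2ne hga0) hga0 h4)
  -- coordinates on the slot line
  have hline : ∀ s t : Ω, coordE x (PF c d (Function.update z i (s • p + t • q)))
      = s • coordE x (PF c d (Function.update z i p))
        + t • coordE x (PF c d (Function.update z i q)) := by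
    intro s t
    rw [MultilinearMap.map_update_add, MultilinearMap.map_update_smul,
      MultilinearMap.map_update_smul, ← coordL_apply, map_add, map_smul, map_smul]
    rfl
  have hupd : ∀ s ∈ L, ∀ t ∈ L, ∀ j, Function.update z i (s • p + t • q) j ∈ RE L x := by
    intro s hs t ht j
    by_cases hj : j = i
    · subst hj
      rw [Function.update_self]
      exact (RE L x).add_mem (RE.smul hs hp) (RE.smul ht hq)
    · rw [Function.update_of_ne hj]
      exact hz j
  have hcm : ∀ f, (∀ j, f j ∈ RE L x) → ∀ l, coordE x (PF c d f) l ∈ L := by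
    intro f hf l
    have h5 := PF_mem_GE hx3 c d f hf
    rw [hd] at h5
    exact coord_mem h5 l
  have hpR : ∀ j, Function.update z i p j ∈ RE L x := by
    intro j
    by_cases hj : j = i
    · subst hj; rw [Function.update_self]; exact hp
    · rw [Function.update_of_ne hj]; exact hz j
  have hqR : ∀ j, Function.update z i q j ∈ RE L x := by
    intro j
    by_cases hj : j = i
    · subst hj; rw [Function.update_self]; exact hq
    · rw [Function.update_of_ne hj]; exact hz j
  set cp := coordE x (PF c d (Function.update z i p)) with hcp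
  set cq := coordE x (PF c d (Function.update z i q)) with hcq
  have hcpL := hcm _ hpR
  have hcqL := hcm _ hqR
  rw [← hcp] at hcpL
  rw [← hcq] at hcqL
  have hΔ : cp 1 * cq 2 - cq 1 * cp 2 ≠ 0 := sub_ne_zero.2 hpq
  set Δ := cp 1 * cq 2 - cq 1 * cp 2 with hΔdef
  have hΔL : Δ ∈ L := sub_mem (mul_mem (hcpL 1) (hcqL 2)) (mul_mem (hcqL 1) (hcpL 2))
  -- rational values with prescribed `(be, ga)`
  have hval : ∀ β ∈ L, ∀ γ ∈ L, ∃ f : Fin m → Fin 3 → Ω, (∀ j, f j ∈ RE L x) ∧
      coordE x (PF c d f) = ![(β * (cq 2 * cp 0 - cp 2 * cq 0)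
        + γ * (cp 1 * cq 0 - cq 1 * cp 0)) / Δ, β, γ] := by
    intro β hβ γ hγ
    refine ⟨Function.update z i (((β * cq 2 - γ * cq 1) / Δ) • p
      + ((γ * cp 1 - β * cp 2) / Δ) • q), hupd _ (div_mem (sub_mem (mul_mem hβ (hcqL 2))
        (mul_mem hγ (hcqL 1))) hΔL) _ (div_mem (sub_mem (mul_mem hγ (hcpL 1))
        (mul_mem hβ (hcpL 2))) hΔL), ?_⟩
    rw [hline]
    apply ext3
    · simp only [Pi.add_apply, Pi.smul_apply, smul_eq_mul, Matrix.cons_val_zero]
      rw [div_mul_eq_mul_div, div_mul_eq_mul_div, ← add_div]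
      congr 1
      ring
    · simp only [Pi.add_apply, Pi.smul_apply, smul_eq_mul, Matrix.cons_val_one,
        Matrix.cons_val_zero]
      rw [div_mul_eq_mul_div, div_mul_eq_mul_div, ← add_div, div_eq_iff hΔ, hΔdef]
      ring
    · simp only [Pi.add_apply, Pi.smul_apply, smul_eq_mul, Matrix.cons_val]
      rw [div_mul_eq_mul_div, div_mul_eq_mul_div, ← add_div, div_eq_iff hΔ, hΔdef]
      ring
  have hc2 : ∀ D : M3 Ω, D 0 0 * D 1 1 + D 0 0 * D 2 2 + D 1 1 * D 2 2
      = coordE x D 0 * coordE x D 2 + coordE x D 2 ^ 2 - coordE x D 1 ^ 2 := by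
    intro D
    rw [coordE_spec x D 0, coordE_spec x D 1, coordE_spec x D 2]
    set al := coordE x D 0
    set b := coordE x D 1
    set g := coordE x D 2
    simp only [cs_zero, cs_one, cs_two]
    linear_combination (al ^ 2 + 2 * al * b * x + 2 * al * b + 2 * al * g * x ^ 2
      + 4 * al * g * x + 3 * al * g + b ^ 2 * x ^ 2 + 2 * b ^ 2 * x + b ^ 2
      + 2 * b * g * x ^ 3 + 6 * b * g * x ^ 2 + 6 * b * g * x + 2 * b * g + g ^ 2 * x ^ 4
      + 4 * g ^ 2 * x ^ 3 + 6 * g ^ 2 * x ^ 2 + 4 * g ^ 2 * x + g ^ 2) * h3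
  -- the step common to both cases
  have key : ∀ (f : Fin m → Fin 3 → Ω) (s : Ω), (∀ j, f j ∈ RE L x) →
      PF c d f 0 0 ≠ PF c d f 1 1 → s * trace (PF c d f) = algebraMap K Ω (trace A) →
      s ^ 2 * (coordE x (PF c d f) 0 * coordE x (PF c d f) 2 + coordE x (PF c d f) 2 ^ 2
        - coordE x (PF c d f) 1 ^ 2) = algebraMap K Ω (c2 A) →
      (s ^ 3 * (PF c d f 0 0 * PF c d f 1 1 * PF c d f 2 2) = algebraMap K Ω (det A) →
        s ≠ 0 ∧ PF c d f 1 1 ≠ PF c d f 2 2 ∧ PF c d f 0 0 ≠ PF c d f 2 2) →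
      ∃ z : Fin m → M3 Ω, evalML Ω c z = A.map (algebraMap K Ω) := by
    intro f s hf hne hT hS hN
    obtain ⟨C, hC, hC0, hC1, hC2, hall⟩ := exists_C hx hx3 c d hd f hf hne
    have hD := hDh f
    set D := PF c d f with hDdef
    rw [← hc2 D] at hS
    have hprod : C 0 1 * C 1 2 * C 2 0 ≠ 0 := mul_ne_zero (mul_ne_zero hC0 hC1) hC2
    obtain ⟨t, ht⟩ := IsAlgClosed.exists_pow_nat_eq
      ((algebraMap K Ω (det A) - s ^ 3 * (D 0 0 * D 1 1 * D 2 2)) / (C 0 1 * C 1 2 * C 2 0))
      (n := 3) (by norm_num)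
    rw [eq_div_iff hprod] at ht
    have hsD : Hom 0 (s • D) := hD.smul s
    have htC : Hom 1 (t • C) := hC.smul t
    obtain ⟨e1, e2, e3⟩ := charpoly_pert hsD htC
    obtain ⟨z, hz⟩ := hall s t
    have d12 : trace D = D 0 0 + D 1 1 + D 2 2 := trace_fin_three D
    have t1 : trace (evalML Ω c z) = algebraMap K Ω (trace A) := by
      rw [hz, e1, ← hT, d12]
      simp only [Matrix.smul_apply, smul_eq_mul]
      ring
    have t2 : c2 (evalML Ω c z) = algebraMap K Ω (c2 A) := by
      rw [hz, e2, ← hS]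
      simp only [Matrix.smul_apply, smul_eq_mul]
      ring
    have t3 : det (evalML Ω c z) = algebraMap K Ω (det A) := by
      rw [hz, e3]
      simp only [Matrix.smul_apply, smul_eq_mul]
      linear_combination ht
    by_cases ht0 : t = 0
    · have hg : s ^ 3 * (D 0 0 * D 1 1 * D 2 2) = algebraMap K Ω (det A) := by
        rw [ht0] at ht
        linear_combination ht
      obtain ⟨hs, h12, h02⟩ := hN hg
      refine value_of_cyc c A v hv z ![1, 1, 1] ?_ t1 t2 t3
      rw [hz, ht0, zero_smul, add_zero]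
      refine cyc_diag hsD ?_ ?_ ?_
      · simpa [hs] using hne
      · simpa [hs] using h12
      · simpa [hs] using h02
    · refine value_of_cyc c A v hv z ![0, 0, 1] ?_ t1 t2 t3
      rw [hz]
      refine cyc_pert hsD htC ?_ ?_
      · simpa [ht0] using hC0
      · simpa [ht0] using hC1
  by_cases hA1 : trace A = 0
  · -- trace zero
    have hA2 : c2 A ≠ 0 := by
      rcases hA with h | h
      · exact absurd hA1 h
      · exact h
    obtain ⟨f, hf, hco⟩ := hval 1 (one_mem L) 0 (zero_mem L)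
    obtain ⟨s, hs⟩ := IsAlgClosed.exists_pow_nat_eq (-(algebraMap K Ω (c2 A))) (n := 2)
      (by norm_num)
    have hs0 : s ≠ 0 := by
      intro h
      rw [h] at hs
      apply hA2
      apply (algebraMap K Ω).injective
      rw [map_zero]
      linear_combination hs
    have hDr : ∀ r, PF c d f r r = coordE x (PF c d f) 0 + (x + cs r) := by
      intro r
      rw [coordE_spec x (PF c d f) r, hco]
      simp
    refine key f s hf ?_ ?_ ?_ ?_
    · rw [hDr, hDr, cs_zero, cs_one]
      intro h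
      exact one_ne_zero (α := Ω) (by linear_combination -h)
    · rw [htrga, hco, hA1]
      simp
    · rw [hco]
      simp only [Matrix.cons_val_zero, Matrix.cons_val_one, Matrix.cons_val]
      linear_combination -hs
    · intro _
      refine ⟨hs0, ?_, ?_⟩
      · rw [hDr, hDr, cs_one, cs_two]
        intro h
        exact one_ne_zero (α := Ω) (by linear_combination -h)
      · rw [hDr, hDr, cs_zero, cs_two]
        intro h
        exact h2ne (by linear_combination -h)
  · -- trace nonzero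
    set s := algebraMap K Ω (trace A) with hsdef
    have hs0 : s ≠ 0 := by
      rw [hsdef]
      exact (map_ne_zero _).2 hA1
    have hsL : s ∈ L := L.algebraMap_mem _
    set b := algebraMap K Ω (c2 A) / s ^ 2 with hbdef
    have hbL : b ∈ L := div_mem (L.algebraMap_mem _) (pow_mem hsL 2)
    have ha1L : (cq 2 * cp 0 - cp 2 * cq 0) / Δ ∈ L :=
      div_mem (sub_mem (mul_mem (hcqL 2) (hcpL 0)) (mul_mem (hcpL 2) (hcqL 0))) hΔL
    have ha0L : (cp 1 * cq 0 - cq 1 * cp 0) / Δ ∈ L :=
      div_mem (sub_mem (mul_mem (hcpL 1) (hcqL 0)) (mul_mem (hcqL 1) (hcpL 0))) hΔL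
    obtain ⟨β, hβ, hβe⟩ := hquad ((cq 2 * cp 0 - cp 2 * cq 0) / Δ) ha1L
      (-((cp 1 * cq 0 - cq 1 * cp 0) / Δ) - 1 + b) (add_mem (sub_mem (neg_mem ha0L) (one_mem L)) hbL)
    obtain ⟨f, hf, hco⟩ := hval β hβ (-1) (neg_mem (one_mem L))
    have hc0 : coordE x (PF c d f) 0 = β * ((cq 2 * cp 0 - cp 2 * cq 0) / Δ)
        - (cp 1 * cq 0 - cq 1 * cp 0) / Δ := by
      rw [hco]
      simp only [Matrix.cons_val_zero]
      rw [mul_div_assoc', ← sub_div]
      congr 1
      ring
    have hc1 : coordE x (PF c d f) 1 = β := by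
      rw [hco]
      simp
    have hc2' : coordE x (PF c d f) 2 = -1 := by
      rw [hco]
      simp
    have hDr := coordE_spec x (PF c d f)
    have hc0L : coordE x (PF c d f) 0 ∈ L := hcm f hf 0
    refine key f s hf ?_ ?_ ?_ ?_
    · rw [hDr 0, hDr 1, cs_zero, cs_one, hc1, hc2']
      intro h
      have h6 := indep hx hx3 (a := -β + 1) (b := 2) (g := 0) (add_mem (neg_mem hβ) (one_mem L))
        (by exact_mod_cast natCast_mem L 2) (zero_mem L) (by linear_combination h)
      exact h2ne h6.2.1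
    · rw [htrga, hc2']
      ring
    · rw [hc0, hc1, hc2']
      have hb2 : s ^ 2 * b = algebraMap K Ω (c2 A) := by
        rw [hbdef, mul_div_cancel₀]
        exact pow_ne_zero 2 hs0
      rw [← hb2]
      linear_combination (-(s ^ 2)) * hβe
    · intro hN
      exfalso
      -- the entries of `s D` are roots of the characteristic polynomial
      have hT : PF c d f 0 0 + PF c d f 1 1 + PF c d f 2 2 = 1 := by
        have h7 : trace (PF c d f) = 1 := by rw [htrga, hc2']; ring
        rwa [trace_fin_three] at h7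
      have hS : s ^ 2 * (PF c d f 0 0 * PF c d f 1 1 + PF c d f 0 0 * PF c d f 2 2
          + PF c d f 1 1 * PF c d f 2 2) = algebraMap K Ω (c2 A) := by
        rw [hc2, hc0, hc1, hc2']
        have hb2 : s ^ 2 * b = algebraMap K Ω (c2 A) := by
          rw [hbdef, mul_div_cancel₀]
          exact pow_ne_zero 2 hs0
        rw [← hb2]
        linear_combination (-(s ^ 2)) * hβe
      obtain ⟨k, hk⟩ := mem_of_root (trace A) (c2 A) (det A) (s * PF c d f 0 0) (by
        rw [← hS, ← hN, ← hsdef]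
        linear_combination s ^ 3 * PF c d f 0 0 ^ 2 * hT)
      have hL0 : PF c d f 0 0 ∈ L := by
        have : PF c d f 0 0 = algebraMap K Ω k / s := by
          rw [hk, mul_div_cancel_left₀ _ hs0]
        rw [this]
        exact div_mem (L.algebraMap_mem _) hsL
      have h9 := hDr 0
      rw [cs_zero, hc1, hc2'] at h9
      have h10 := indep hx hx3 (a := coordE x (PF c d f) 0 - PF c d f 0 0) (b := β) (g := -1)
        (sub_mem hc0L hL0) hβ (neg_mem (one_mem L)) (by linear_combination -h9)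
      exact one_ne_zero (α := Ω) (by linear_combination -h10.2.2)

end Pool.Agent.H74C3
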