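import Pool.Agent.Helper74.C3.Ord

/-!
# Block C3-D: the scalar matrices are values (characteristic three)

With the orders of `C3/Ord.lean`: among all order bounds `n` for which some tuple `z` with
`Od (n j) (z j)` has a nonzero value take minimal ones. The values of such tuples are shift
invariant (`od_zero`), a homogeneous component of a tuple with nonzero value has a nonzero value
`w • y ^ e`, and if `e ≠ 0` a slot change moves the degree to `0` (`slot_change`). The value
`w • 1`, `w ≠ 0`, is scaled in the first slot.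
-/

open Matrix

namespace Pool.Agent.H74C3

open Pool.Agent.H24ML Pool.Agent.H88KL

universe u

/-- Every scalar matrix is a value of a nonzero multilinear polynomial map (characteristic three). -/
theorem scalar_value {K Ω : Type u} [Field K] [Field Ω] [Algebra K Ω] [CharP Ω 3] {m : ℕ}
    (hm : 0 < m) (c : Equiv.Perm (Fin m) → K) (h : ∃ z : Fin m → M3 Ω, evalML Ω c z ≠ 0) (a : Ω) :
    ∃ z : Fin m → M3 Ω, evalML Ω c z = a • (1 : M3 Ω) := by
  obtain ⟨n, ⟨z, hz, hne⟩, hmin⟩ := exists_min (fun A => A ≠ 0) c h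
  have hinv : ∀ z : Fin m → M3 Ω, (∀ j, Od (n j) (z j)) → sh (evalML Ω c z) = evalML Ω c z := by
    refine od_zero c n ?_
    intro i hi z hz hzi
    have h0 : evalML Ω c z = 0 := by
      by_contra hc
      exact hmin i hi z hz hzi hc
    rw [h0]
    exact Submodule.zero_mem _
  have key : ∃ (z' : Fin m → M3 Ω) (w : Ω), w ≠ 0 ∧ evalML Ω c z' = w • (1 : M3 Ω) := by
    rw [expand] at hne
    obtain ⟨d, -, hd⟩ := Finset.exists_ne_zero_of_sum_ne_zero hne
    have hz' : ∀ j, Od (n j) (comp (d j) (z j)) := fun j => Od.comp _ _ (hz j)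
    have hh' : ∀ j, Hom (d j) (comp (d j) (z j)) := fun j => comp_hom _ _
    by_cases he : ∑ j, d j = 0
    · have h1 := inv_hom (hinv _ hz') (evalML_hom c _ d hh')
      rw [he, yp_zero] at h1
      refine ⟨_, _, ?_, h1⟩
      intro hw
      rw [hw, zero_smul] at h1
      exact hd h1
    · obtain ⟨z', w, -, hw, h1⟩ := slot_change c n hinv d _ hz' hh' he hd 0
      rw [yp_zero] at h1
      exact ⟨z', w, hw, h1⟩
  obtain ⟨z', w, hw, h1⟩ := key
  refine ⟨Function.update z' ⟨0, hm⟩ ((a * w⁻¹) • z' ⟨0, hm⟩), ?_⟩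
  rw [MultilinearMap.map_update_smul, Function.update_eq_self, h1, smul_smul, mul_assoc,
    inv_mul_cancel₀ hw, mul_one]

end Pool.Agent.H74C3
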