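import Pool.Agent.Helper88.KL.ZornA

/-!
# Block C3-FLD: the fields

`K` algebraically closed of characteristic three. `Ω` is the algebraic closure of `K(τ)`, `τ`
transcendental; `L' = K(τ ^ 3)`, and `L` is a maximal intermediate field containing `τ ^ 3 - τ`
but not `τ`; it is quadratically closed.
-/

open Polynomial

namespace Pool.Agent.H74C3

universe u

/-- If `τ` is transcendental and `q` has degree three then `τ` is not in `K(q(τ))`. -/
private theorem notMem46 {K Ω : Type u} [Field K] [Field Ω] [Algebra K Ω] {τ : Ω}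
    (hτ : Transcendental K τ) {q : K[X]} (hq : q.natDegree = 3) :
    τ ∉ IntermediateField.adjoin K {aeval τ q} := by
  intro h
  rw [IntermediateField.mem_adjoin_simple_iff] at h
  obtain ⟨r, s, h⟩ := h
  have hτ0 : τ ≠ 0 := by
    rintro rfl
    exact hτ isAlgebraic_zero
  have hs : aeval (aeval τ q) s ≠ 0 := by
    intro hs
    rw [hs, div_zero] at h
    exact hτ0 h
  rw [eq_div_iff hs] at h
  have h1 : aeval τ (X * s.comp q - r.comp q) = 0 := by
    rw [map_sub, map_mul, aeval_X, aeval_comp, aeval_comp, h, sub_self]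
  have h2 : X * s.comp q - r.comp q = 0 := by
    by_contra hne
    exact hτ ⟨_, hne, h1⟩
  have hs0 : s.comp q ≠ 0 := by
    intro h0
    apply hs
    rw [← aeval_comp, h0, map_zero]
  have h3 := congrArg natDegree (sub_eq_zero.1 h2)
  rw [natDegree_X_mul hs0, natDegree_comp, natDegree_comp, hq] at h3
  omega

/-- Maximal intermediate fields without `τ`. -/
private theorem exists_max46 {K Ω : Type u} [Field K] [Field Ω] [Algebra K Ω] {τ : Ω}
    (L₀ : IntermediateField K Ω) (h0 : τ ∉ L₀) :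
    ∃ L : IntermediateField K Ω, L₀ ≤ L ∧ τ ∉ L ∧
      ∀ L' : IntermediateField K Ω, L ≤ L' → τ ∉ L' → L' ≤ L := by
  obtain ⟨L, hL0, hL⟩ := zorn_le_nonempty₀ {L : IntermediateField K Ω | τ ∉ L} (by
    intro c hcs hc y hy
    have : Nonempty c := ⟨⟨y, hy⟩⟩
    have hdir : Directed (· ≤ ·) (fun z : c => (z : IntermediateField K Ω)) := by
      rintro ⟨a, ha⟩ ⟨b, hb⟩
      rcases hc.total ha hb with h | h
      · exact ⟨⟨b, hb⟩, h, le_rfl⟩
      · exact ⟨⟨a, ha⟩, le_rfl, h⟩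
    refine ⟨⨆ z : c, (z : IntermediateField K Ω), ?_, fun z hz => le_iSup
      (fun z : c => (z : IntermediateField K Ω)) ⟨z, hz⟩⟩
    intro hmem
    have hmem' : τ ∈ ((⨆ z : c, (z : IntermediateField K Ω) : IntermediateField K Ω) : Set Ω) :=
      hmem
    rw [IntermediateField.coe_iSup_of_directed hdir, Set.mem_iUnion] at hmem'
    obtain ⟨z, hz⟩ := hmem'
    exact hcs z.2 hz) L₀ h0
  exact ⟨L, hL0, hL.1, fun L' h1 h2 => hL.2 h2 h1⟩

/-- Maximal fields without `τ`, `τ ^ 3 - τ ∈ L`, are quadratically closed in characteristic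
three. -/
private theorem quad46 {K Ω : Type u} [Field K] [Field Ω] [Algebra K Ω] [IsAlgClosed Ω]
    (h3 : (3 : Ω) = 0) {τ : Ω} {L : IntermediateField K Ω} (hτ : τ ∉ L) (hc : τ ^ 3 - τ ∈ L)
    (hmax : ∀ L' : IntermediateField K Ω, L ≤ L' → τ ∉ L' → L' ≤ L) {a b : Ω} (ha : a ∈ L)
    (hb : b ∈ L) : ∃ r ∈ L, r ^ 2 + a * r + b = 0 := by
  by_contra hno
  push Not at hno
  obtain ⟨ρ, hρ⟩ : ∃ ρ : Ω, ρ ^ 2 + a * ρ + b = 0 := by
    obtain ⟨ρ, hρ⟩ := IsAlgClosed.exists_root (X ^ 2 + C a * X + C b : Polynomial Ω) (by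
      have h := degree_quadratic (a := (1 : Ω)) (b := a) (c := b) one_ne_zero
      rw [C_1, one_mul] at h
      rw [h]
      norm_num)
    refine ⟨ρ, ?_⟩
    simpa [IsRoot.def] using hρ
  have hρL : ρ ∉ L := fun h => hno ρ h hρ
  have hLL : L ≤ H88KL.quadExt L a b ρ ha hb hρ hno := fun x hx => ⟨x, hx, 0, zero_mem _, by ring⟩
  have hρL' : ρ ∈ H88KL.quadExt L a b ρ ha hb hρ hno := ⟨0, zero_mem _, 1, one_mem _, by ring⟩
  have hmem : τ ∈ H88KL.quadExt L a b ρ ha hb hρ hno := by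
    by_contra h
    exact hρL (hmax _ hLL h hρL')
  obtain ⟨x, hx, y, hy, hxy⟩ := hmem
  -- a quadratic equation for `τ`
  obtain ⟨p, hp, r, hr, hm⟩ : ∃ p ∈ L, ∃ r ∈ L, τ ^ 2 + p * τ + r = 0 := by
    refine ⟨a * y - 2 * x, sub_mem (mul_mem ha hy) (mul_mem (ofNat_mem L 2) hx),
      x ^ 2 - a * y * x + b * y ^ 2, add_mem (sub_mem (pow_mem hx 2)
        (mul_mem (mul_mem ha hy) hx)) (mul_mem hb (pow_mem hy 2)), ?_⟩
    rw [hxy]
    linear_combination y ^ 2 * hρ
  have h1 : (p ^ 2 - r - 1) * τ + (p * r - (τ ^ 3 - τ)) = 0 := by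
    linear_combination (p - τ) * hm
  have h2 : p ^ 2 - r - 1 = 0 := by
    by_contra h2
    apply hτ
    have : τ = -(p * r - (τ ^ 3 - τ)) / (p ^ 2 - r - 1) := by
      rw [eq_div_iff h2]
      linear_combination h1
    rw [this]
    exact div_mem (neg_mem (sub_mem (mul_mem hp hr) hc))
      (sub_mem (sub_mem (pow_mem hp 2) hr) (one_mem _))
  have h4 : (τ - p) * ((τ - p - 1) * (τ - p + 1)) = 0 := by
    linear_combination (-1 : Ω) * h1 + (τ - p) * h2 + (τ * p ^ 2 - τ ^ 2 * p) * h3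
  rcases mul_eq_zero.1 h4 with h | h
  · exact hτ (by rw [sub_eq_zero.1 h]; exact hp)
  rcases mul_eq_zero.1 h with h | h
  · have : τ = p + 1 := by linear_combination h
    exact hτ (by rw [this]; exact add_mem hp (one_mem _))
  · have : τ = p - 1 := by linear_combination h
    exact hτ (by rw [this]; exact sub_mem hp (one_mem _))

/-- The fields of the proof. -/
theorem exists_fields (K : Type u) [Field K] [CharP K 3] :
    ∃ (Ω : Type u) (_ : Field Ω) (_ : Algebra K Ω), IsAlgClosed Ω ∧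
      ∃ (τ : Ω) (L L' : IntermediateField K Ω), Transcendental K τ ∧
        τ ∉ L ∧ τ ^ 3 - τ ∈ L ∧ (∀ a ∈ L, ∀ b ∈ L, ∃ r ∈ L, r ^ 2 + a * r + b = 0) ∧
        τ ∉ L' ∧ τ ^ 3 ∈ L' := by
  refine ⟨AlgebraicClosure (RatFunc K), inferInstance, inferInstance, inferInstance,
    algebraMap (RatFunc K) _ RatFunc.X, ?_⟩
  obtain ⟨τ, hτdef⟩ : ∃ τ, τ = algebraMap (RatFunc K) (AlgebraicClosure (RatFunc K)) RatFunc.X :=
    ⟨_, rfl⟩
  rw [← hτdef]
  have hτ : Transcendental K τ := by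
    rw [hτdef, transcendental_algebraMap_iff (algebraMap (RatFunc K) _).injective]
    exact RatFunc.transcendental_X
  have h3 : (3 : AlgebraicClosure (RatFunc K)) = 0 := by
    have h := CharP.cast_eq_zero K 3
    have h' := congrArg (algebraMap K (AlgebraicClosure (RatFunc K))) h
    rw [map_zero, map_natCast] at h'
    exact_mod_cast h'
  have e1 : aeval τ (X ^ 3 - X : K[X]) = τ ^ 3 - τ := by simp
  have e2 : aeval τ (X ^ 3 : K[X]) = τ ^ 3 := by simp
  have d1 : (X ^ 3 - X : K[X]).natDegree = 3 := by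
    compute_degree!
  have d2 : (X ^ 3 : K[X]).natDegree = 3 := natDegree_X_pow 3
  obtain ⟨L, hL0, hL1, hL2⟩ := exists_max46 (τ := τ)
    (IntermediateField.adjoin K {aeval τ (X ^ 3 - X : K[X])}) (notMem46 hτ d1)
  have hc : τ ^ 3 - τ ∈ L := by
    rw [← e1]
    exact hL0 (IntermediateField.mem_adjoin_simple_self K _)
  refine ⟨L, IntermediateField.adjoin K {aeval τ (X ^ 3 : K[X])}, hτ, hL1, hc,
    fun a ha b hb => quad46 h3 hL1 hc hL2 ha hb, notMem46 hτ d2, ?_⟩
  have := IntermediateField.mem_adjoin_simple_self K (aeval τ (X ^ 3 : K[X]))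
  rwa [e2] at this ⊢

end Pool.Agent.H74C3
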