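import Mathlib

/-!
# Three multilinear forms (Lemmas 1 and 2 of the characteristic three theorem)

Let `L` be a subfield of an algebraically closed field `Ω`, let `F₀, F₁, F₂` be multilinear forms
defined over `L` with three independent values, and let `w₀, w₁, w₂ ∈ Ω` be linearly independent
over `L`. Then `F z = w` is solvable over `Ω` (`three_forms`).
-/

set_option linter.unusedSectionVars false

namespace Pool.Agent.H74C3

section

variable {Ω X : Type*} [Field Ω] [AddCommGroup X] [Module Ω X]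

/-- A form which vanishes on a spanning set of points vanishes. -/
lemma vanish (R : Set X) (hspan : Submodule.span Ω R = ⊤) :
    ∀ {k : ℕ} (g : MultilinearMap Ω (fun _ : Fin k => X) Ω), (∀ z, (∀ i, z i ∈ R) → g z = 0) →
      ∀ z, g z = 0 := by
  intro k
  induction k with
  | zero =>
    intro g hg z
    exact hg z fun i => i.elim0
  | succ k ih =>
    intro g hg z
    have h1 : ∀ x ∈ R, g.curryLeft x = 0 := by
      intro x hx
      ext t
      refine ih (g.curryLeft x) ?_ t
      intro t ht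
      rw [MultilinearMap.curryLeft_apply]
      refine hg _ fun i => ?_
      refine Fin.cases ?_ ?_ i
      · exact hx
      · exact ht
    have h2 : (⊤ : Submodule Ω X) ≤ LinearMap.ker g.curryLeft := by
      rw [← hspan, Submodule.span_le]
      intro x hx
      exact h1 x hx
    have h3 : g.curryLeft (z 0) = 0 := h2 Submodule.mem_top
    have h4 := congrArg (fun f => f (Fin.tail z)) h3
    simpa [MultilinearMap.curryLeft_apply, Fin.cons_self_tail] using h4

lemma cons_mem {R : Set X} {k : ℕ} {x : X} {t : Fin k → X} (hx : x ∈ R) (ht : ∀ i, t i ∈ R) :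
    ∀ i, (Fin.cons x t : Fin (k + 1) → X) i ∈ R := by
  intro i
  refine Fin.cases ?_ ?_ i
  · exact hx
  · exact ht

/-- **Lemma 1.** Two forms with two independent values have two independent values on a slot
line. -/
theorem exists_line (R : AddSubgroup X) : ∀ {k : ℕ} (g h : MultilinearMap Ω (fun _ : Fin k => X) Ω)
    (z1 z2 : Fin k → X), (∀ i, z1 i ∈ R) → (∀ i, z2 i ∈ R) → g z1 * h z2 ≠ g z2 * h z1 →
    ∃ (i : Fin k) (z : Fin k → X) (u v : X), (∀ j, z j ∈ R) ∧ u ∈ R ∧ v ∈ R ∧
      g (Function.update z i u) * h (Function.update z i v) ≠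
        g (Function.update z i v) * h (Function.update z i u) := by
  intro k
  induction k with
  | zero =>
    intro g h z1 z2 _ _ hne
    exact absurd (by rw [Subsingleton.elim z1 z2]) hne
  | succ k ih =>
    intro g h z1 z2 hz1 hz2 hne
    by_cases hx : ∃ x ∈ R, ∃ t t' : Fin k → X, (∀ i, t i ∈ R) ∧ (∀ i, t' i ∈ R) ∧
        g.curryLeft x t * h.curryLeft x t' ≠ g.curryLeft x t' * h.curryLeft x t
    · obtain ⟨x, hxR, t, t', ht, ht', hne'⟩ := hx
      obtain ⟨i, z, u, v, hz, hu, hv, hne''⟩ := ih (g.curryLeft x) (h.curryLeft x) t t' ht ht' hne'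
      refine ⟨i.succ, Fin.cons x z, u, v, cons_mem (R := (R : Set X)) hxR hz, hu, hv, ?_⟩
      simp only [MultilinearMap.curryLeft_apply] at hne''
      rw [← Fin.cons_update, ← Fin.cons_update]
      exact hne''
    · push Not at hx
      refine ⟨0, z1, z1 0, z2 0, hz1, hz1 0, hz2 0, ?_⟩
      have e1 : z1 = Fin.cons (z1 0) (Fin.tail z1) := (Fin.cons_self_tail z1).symm
      have e2 : z2 = Fin.cons (z2 0) (Fin.tail z2) := (Fin.cons_self_tail z2).symm
      have u1 : Function.update z1 0 (z1 0) = z1 := Function.update_eq_self 0 z1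
      have u2 : Function.update z1 0 (z2 0) = Fin.cons (z2 0) (Fin.tail z1) := by
        conv_lhs => rw [e1]
        rw [Fin.update_cons_zero]
      rw [u1, u2]
      have t1 : ∀ i, Fin.tail z1 i ∈ R := fun i => hz1 i.succ
      have t2 : ∀ i, Fin.tail z2 i ∈ R := fun i => hz2 i.succ
      have a1 := hx (z1 0) (hz1 0) (Fin.tail z1) (Fin.tail z2) t1 t2
      have a2 := hx (z2 0) (hz2 0) (Fin.tail z1) (Fin.tail z2) t1 t2
      have a3 := hx (z1 0 + z2 0) (R.add_mem (hz1 0) (hz2 0)) (Fin.tail z1) (Fin.tail z2) t1 t2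
      simp only [map_add, add_apply, MultilinearMap.curryLeft_apply] at a1 a2 a3
      rw [← e1] at a1 a3
      rw [← e2] at a2 a3
      intro hcon
      apply hne
      set g1 := g z1
      set h1 := h z1
      set g2 := g z2
      set h2 := h z2
      set ga := g (Fin.cons (z1 0) (Fin.tail z2))
      set ha := h (Fin.cons (z1 0) (Fin.tail z2))
      set gb := g (Fin.cons (z2 0) (Fin.tail z1))
      set hb := h (Fin.cons (z2 0) (Fin.tail z1))
      -- a1 : g1 * ha = ga * h1, a2 : gb * h2 = g2 * hb, hcon : g1 * hb = gb * h1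
      have k1 : g1 * (gb * ha - ga * hb) = 0 := by
        linear_combination gb * a1 - ga * hcon
      have k2 : h1 * (gb * ha - ga * hb) = 0 := by
        linear_combination hb * a1 - ha * hcon
      by_cases hg : gb * ha - ga * hb = 0
      · linear_combination a3 - a1 - a2 - hg
      · have e3 := (mul_eq_zero.1 k1).resolve_right hg
        have e4 := (mul_eq_zero.1 k2).resolve_right hg
        rw [e3, e4]
        ring

/-- Two forms with two independent values take all pairs of values. -/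
theorem two_forms {k : ℕ} (g h : MultilinearMap Ω (fun _ : Fin k => X) Ω) (z1 z2 : Fin k → X)
    (hne : g z1 * h z2 ≠ g z2 * h z1) (p q : Ω) : ∃ z, g z = p ∧ h z = q := by
  obtain ⟨i, z, u, v, -, -, -, hd⟩ := exists_line (⊤ : AddSubgroup X) g h z1 z2
    (fun _ => AddSubgroup.mem_top _) (fun _ => AddSubgroup.mem_top _) hne
  set gu := g (Function.update z i u)
  set hu := h (Function.update z i u)
  set gv := g (Function.update z i v)
  set hv := h (Function.update z i v)
  have hd' : gu * hv - gv * hu ≠ 0 := sub_ne_zero.2 hd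
  refine ⟨Function.update z i (((p * hv - q * gv) / (gu * hv - gv * hu)) • u +
    ((q * gu - p * hu) / (gu * hv - gv * hu)) • v), ?_, ?_⟩
  · rw [MultilinearMap.map_update_add, MultilinearMap.map_update_smul,
      MultilinearMap.map_update_smul, smul_eq_mul, smul_eq_mul]
    change _ * gu + _ * gv = p
    rw [div_mul_eq_mul_div, div_mul_eq_mul_div, ← add_div, div_eq_iff hd']
    ring
  · rw [MultilinearMap.map_update_add, MultilinearMap.map_update_smul,
      MultilinearMap.map_update_smul, smul_eq_mul, smul_eq_mul]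
    change _ * hu + _ * hv = q
    rw [div_mul_eq_mul_div, div_mul_eq_mul_div, ← add_div, div_eq_iff hd']
    ring

/-- Cross product. -/
def cr (a b : Fin 3 → Ω) : Fin 3 → Ω :=
  ![a 1 * b 2 - a 2 * b 1, a 2 * b 0 - a 0 * b 2, a 0 * b 1 - a 1 * b 0]

/-- Scalar product. -/
def dt (a b : Fin 3 → Ω) : Ω := a 0 * b 0 + a 1 * b 1 + a 2 * b 2

/-- Triple product. -/
def det3 (a b c : Fin 3 → Ω) : Ω := dt (cr a b) c

lemma det3_eq (a b c : Fin 3 → Ω) : det3 a b c = (a 1 * b 2 - a 2 * b 1) * c 0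
    + (a 2 * b 0 - a 0 * b 2) * c 1 + (a 0 * b 1 - a 1 * b 0) * c 2 := by
  simp [det3, dt, cr]

lemma ext3 {a b : Fin 3 → Ω} (h0 : a 0 = b 0) (h1 : a 1 = b 1) (h2 : a 2 = b 2) : a = b := by
  funext i
  fin_cases i
  · exact h0
  · exact h1
  · exact h2

lemma cramer (a b c w : Fin 3 → Ω) (h : det3 a b c ≠ 0) :
    ∃ x y z : Ω, x • a + y • b + z • c = w := by
  refine ⟨det3 w b c / det3 a b c, det3 a w c / det3 a b c, det3 a b w / det3 a b c, ?_⟩
  have h' := h
  rw [det3_eq] at h'
  apply ext3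
  all_goals
    simp only [Pi.add_apply, Pi.smul_apply, smul_eq_mul, det3_eq]
    rw [div_mul_eq_mul_div, div_mul_eq_mul_div, div_mul_eq_mul_div, ← add_div, ← add_div,
      div_eq_iff h']
    ring

lemma par {a v : Fin 3 → Ω} (h : cr a v = 0) (hv : v ≠ 0) : ∃ r : Ω, a = r • v := by
  have h0 := congrFun h 0
  have h1 := congrFun h 1
  have h2 := congrFun h 2
  simp only [cr, Matrix.cons_val_zero, Matrix.cons_val_one, Matrix.cons_val, Pi.zero_apply]
    at h0 h1 h2
  by_cases v0 : v 0 = 0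
  · by_cases v1 : v 1 = 0
    · by_cases v2 : v 2 = 0
      · exact absurd (ext3 v0 v1 v2) hv
      · refine ⟨a 2 / v 2, ext3 ?_ ?_ ?_⟩ <;>
        simp only [Pi.smul_apply, smul_eq_mul] <;> rw [div_mul_eq_mul_div, eq_div_iff v2]
        · linear_combination -h1
        · linear_combination h0
    · refine ⟨a 1 / v 1, ext3 ?_ ?_ ?_⟩ <;>
      simp only [Pi.smul_apply, smul_eq_mul] <;> rw [div_mul_eq_mul_div, eq_div_iff v1]
      · linear_combination h2
      · linear_combination -h0
  · refine ⟨a 0 / v 0, ext3 ?_ ?_ ?_⟩ <;>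
    simp only [Pi.smul_apply, smul_eq_mul] <;> rw [div_mul_eq_mul_div, eq_div_iff v0]
    · linear_combination -h2
    · linear_combination h1

end

section

variable {Ω X : Type*} [Field Ω] [AddCommGroup X] [Module Ω X]

lemma dt_mem {L : Subfield Ω} {a b : Fin 3 → Ω} (ha : ∀ l, a l ∈ L) (hb : ∀ l, b l ∈ L) :
    dt a b ∈ L :=
  L.add_mem (L.add_mem (L.mul_mem (ha 0) (hb 0)) (L.mul_mem (ha 1) (hb 1)))
    (L.mul_mem (ha 2) (hb 2))

lemma cr_mem {L : Subfield Ω} {a b : Fin 3 → Ω} (ha : ∀ l, a l ∈ L) (hb : ∀ l, b l ∈ L) :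
    ∀ l, cr a b l ∈ L := by
  intro l
  fin_cases l
  · exact L.sub_mem (L.mul_mem (ha 1) (hb 2)) (L.mul_mem (ha 2) (hb 1))
  · exact L.sub_mem (L.mul_mem (ha 2) (hb 0)) (L.mul_mem (ha 0) (hb 2))
  · exact L.sub_mem (L.mul_mem (ha 0) (hb 1)) (L.mul_mem (ha 1) (hb 0))

/-- The pencil case of the three forms lemma. -/
theorem pencil [IsAlgClosed Ω] (L : Subfield Ω) (hL : ∃ s ∈ L, s ≠ 0 ∧ s ≠ 1)
    (R : AddSubgroup X) (hspan : Submodule.span Ω (R : Set X) = ⊤) {k : ℕ}
    (nu a mu b : MultilinearMap Ω (fun _ : Fin k => X) Ω)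
    (rnu : ∀ z, (∀ i, z i ∈ R) → nu z ∈ L) (ra : ∀ z, (∀ i, z i ∈ R) → a z ∈ L)
    (rmu : ∀ z, (∀ i, z i ∈ R) → mu z ∈ L) (rb : ∀ z, (∀ i, z i ∈ R) → b z ∈ L)
    (t1 t2 : Fin k → X) (ht1 : ∀ i, t1 i ∈ R) (ht2 : ∀ i, t2 i ∈ R)
    (hA : nu t1 * a t2 ≠ nu t2 * a t1)
    (hdet : ∀ s ∈ L, ∀ τ1 τ2 τ3 : Fin k → X, (∀ i, τ1 i ∈ R) → (∀ i, τ2 i ∈ R) →
      (∀ i, τ3 i ∈ R) → det3 ![s * mu τ1, nu τ1, a τ1 + s * b τ1]
        ![s * mu τ2, nu τ2, a τ2 + s * b τ2] ![s * mu τ3, nu τ3, a τ3 + s * b τ3] = 0)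
    (t0 : Fin k → X) (ht0 : ∀ i, t0 i ∈ R) (hB : mu t0 ≠ 0)
    (w : Fin 3 → Ω) (hw : ∀ c : Fin 3 → Ω, (∀ l, c l ∈ L) → dt c w = 0 → c = 0) :
    ∃ s1 s2 t, s2 * mu t = w 0 ∧ s1 * nu t = w 1 ∧ s1 * a t + s2 * b t = w 2 := by
  have w0 : w 0 ≠ 0 := by
    intro h
    have := hw ![1, 0, 0] (by
      intro l; fin_cases l
      · exact L.one_mem
      · exact L.zero_mem
      · exact L.zero_mem) (by simp [dt, h])
    have := congrFun this 0
    simp at this
  have w1 : w 1 ≠ 0 := by
    intro h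
    have := hw ![0, 1, 0] (by
      intro l; fin_cases l
      · exact L.zero_mem
      · exact L.one_mem
      · exact L.zero_mem) (by simp [dt, h])
    have := congrFun this 1
    simp at this
  by_cases hI : ∀ τ1 τ2 : Fin k → X, (∀ i, τ1 i ∈ R) → (∀ i, τ2 i ∈ R) →
      mu τ1 * nu τ2 = mu τ2 * nu τ1
  · -- case (I)
    have hnu0 : nu t0 ≠ 0 := by
      intro h
      have h1 : ∀ τ : Fin k → X, (∀ i, τ i ∈ R) → nu τ = 0 := by
        intro τ hτ
        have := hI t0 τ ht0 hτ
        rw [h, mul_zero] at this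
        exact (mul_eq_zero.1 this).resolve_left hB
      apply hA
      rw [h1 t1 ht1, h1 t2 ht2]
      ring
    have hr : ∀ τ, nu τ * mu t0 = mu τ * nu t0 := by
      have h1 := vanish (R : Set X) hspan ((mu t0) • nu - (nu t0) • mu) (by
        intro z hz
        simp only [sub_apply, smul_apply, smul_eq_mul]
        have := hI t0 z ht0 hz
        linear_combination this)
      intro τ
      have h2 := h1 τ
      simp only [sub_apply, smul_apply, smul_eq_mul] at h2
      linear_combination h2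
    set r := nu t0 / mu t0 with hr'
    have hr0 : r ≠ 0 := div_ne_zero hnu0 hB
    have hrL : r ∈ L := L.div_mem (rnu t0 ht0) (rmu t0 ht0)
    have hnr : ∀ τ, nu τ = r * mu τ := by
      intro τ
      rw [hr', div_mul_eq_mul_div, eq_div_iff hB, hr τ]
      ring
    set e : MultilinearMap Ω (fun _ : Fin k => X) Ω := (w 1 / r) • a + (w 0) • b with he
    have hev : ∀ τ, e τ = (w 1 / r) * a τ + w 0 * b τ := by
      intro τ
      simp only [he, add_apply, smul_apply, smul_eq_mul]
    by_cases hG : ∃ τ1 τ2, mu τ1 * e τ2 ≠ mu τ2 * e τ1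
    · obtain ⟨τ1, τ2, hne⟩ := hG
      obtain ⟨t, h1, h2⟩ := two_forms mu e τ1 τ2 hne 1 (w 2)
      refine ⟨w 1 / r, w 0, t, ?_, ?_, ?_⟩
      · rw [h1, mul_one]
      · rw [hnr, h1]
        field_simp
      · rw [← hev, h2]
    · push Not at hG
      exfalso
      apply hA
      have key : ∀ τ : Fin k → X, (∀ i, τ i ∈ R) → a τ * mu t0 = a t0 * mu τ := by
        intro τ hτ
        have h1 := hG τ t0
        rw [hev, hev] at h1
        have h2 := hw ![b τ * mu t0 - b t0 * mu τ, (a τ * mu t0 - a t0 * mu τ) / r, 0] (by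
          intro l; fin_cases l
          · exact L.sub_mem (L.mul_mem (rb τ hτ) (rmu t0 ht0)) (L.mul_mem (rb t0 ht0) (rmu τ hτ))
          · exact L.div_mem (L.sub_mem (L.mul_mem (ra τ hτ) (rmu t0 ht0))
              (L.mul_mem (ra t0 ht0) (rmu τ hτ))) hrL
          · exact L.zero_mem) (by
          simp only [dt, Matrix.cons_val_zero, Matrix.cons_val_one, Matrix.cons_val]
          linear_combination -h1)
        have h3 := congrFun h2 1
        simp only [Matrix.cons_val_one, Matrix.cons_val_zero, Pi.zero_apply, div_eq_zero_iff]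
          at h3
        exact sub_eq_zero.1 (h3.resolve_right hr0)
      rw [hnr, hnr]
      have k1 := key t1 ht1
      have k2 := key t2 ht2
      apply mul_right_cancel₀ hB
      linear_combination r * mu t1 * k2 - r * mu t2 * k1
  · -- case (II)
    push Not at hI
    obtain ⟨τ1, τ2, hτ1, hτ2, hD⟩ := hI
    have hD' : mu τ1 * nu τ2 - mu τ2 * nu τ1 ≠ 0 := sub_ne_zero.2 hD
    have hlin : ∃ a1 a2 b1 b2 : Ω, a1 ∈ L ∧ a2 ∈ L ∧ b1 ∈ L ∧ b2 ∈ L ∧
        (∀ τ : Fin k → X, (∀ i, τ i ∈ R) → a τ = a1 * mu τ + a2 * nu τ) ∧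
        (∀ τ : Fin k → X, (∀ i, τ i ∈ R) → b τ = b1 * mu τ + b2 * nu τ) := by
      obtain ⟨s, hsL, hs0, hs1⟩ := hL
      refine ⟨(a τ1 * nu τ2 - a τ2 * nu τ1) / (mu τ1 * nu τ2 - mu τ2 * nu τ1),
        (mu τ1 * a τ2 - mu τ2 * a τ1) / (mu τ1 * nu τ2 - mu τ2 * nu τ1),
        (b τ1 * nu τ2 - b τ2 * nu τ1) / (mu τ1 * nu τ2 - mu τ2 * nu τ1),
        (mu τ1 * b τ2 - mu τ2 * b τ1) / (mu τ1 * nu τ2 - mu τ2 * nu τ1), ?_, ?_, ?_, ?_, ?_, ?_⟩
      · exact L.div_mem (L.sub_mem (L.mul_mem (ra _ hτ1) (rnu _ hτ2))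
          (L.mul_mem (ra _ hτ2) (rnu _ hτ1))) (L.sub_mem (L.mul_mem (rmu _ hτ1) (rnu _ hτ2))
          (L.mul_mem (rmu _ hτ2) (rnu _ hτ1)))
      · exact L.div_mem (L.sub_mem (L.mul_mem (rmu _ hτ1) (ra _ hτ2))
          (L.mul_mem (rmu _ hτ2) (ra _ hτ1))) (L.sub_mem (L.mul_mem (rmu _ hτ1) (rnu _ hτ2))
          (L.mul_mem (rmu _ hτ2) (rnu _ hτ1)))
      · exact L.div_mem (L.sub_mem (L.mul_mem (rb _ hτ1) (rnu _ hτ2))
          (L.mul_mem (rb _ hτ2) (rnu _ hτ1))) (L.sub_mem (L.mul_mem (rmu _ hτ1) (rnu _ hτ2))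
          (L.mul_mem (rmu _ hτ2) (rnu _ hτ1)))
      · exact L.div_mem (L.sub_mem (L.mul_mem (rmu _ hτ1) (rb _ hτ2))
          (L.mul_mem (rmu _ hτ2) (rb _ hτ1))) (L.sub_mem (L.mul_mem (rmu _ hτ1) (rnu _ hτ2))
          (L.mul_mem (rmu _ hτ2) (rnu _ hτ1)))
      all_goals
        intro τ hτ
        have e1 := hdet 1 L.one_mem τ1 τ2 τ hτ1 hτ2 hτ
        have e2 := hdet s hsL τ1 τ2 τ hτ1 hτ2 hτ
        rw [det3_eq] at e1 e2
        simp only [Matrix.cons_val_zero, Matrix.cons_val_one, Matrix.cons_val] at e1 e2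
        have e3 := (mul_eq_zero.1 (show s * ((nu τ1 * (a τ2 + s * b τ2)
          - (a τ1 + s * b τ1) * nu τ2) * mu τ + ((a τ1 + s * b τ1) * mu τ2
          - mu τ1 * (a τ2 + s * b τ2)) * nu τ + (mu τ1 * nu τ2 - nu τ1 * mu τ2)
          * (a τ + s * b τ)) = 0 by linear_combination e2)).resolve_left hs0
        have e4 := (mul_eq_zero.1 (show (s - 1) * ((nu τ1 * b τ2 - b τ1 * nu τ2) * mu τ
          + (b τ1 * mu τ2 - mu τ1 * b τ2) * nu τ + (mu τ1 * nu τ2 - nu τ1 * mu τ2) * b τ) = 0 by
          linear_combination e3 - e1)).resolve_left (sub_ne_zero.2 hs1)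
        rw [div_mul_eq_mul_div, div_mul_eq_mul_div, ← add_div, eq_div_iff hD']
      · linear_combination e1 - e4
      · linear_combination e4
    obtain ⟨a1, a2, b1, b2, ha1, ha2, hb1, hb2, haR, hbR⟩ := hlin
    have haΩ : ∀ τ, a τ = a1 * mu τ + a2 * nu τ := by
      have h1 := vanish (R : Set X) hspan (a - (a1 • mu + a2 • nu)) (by
        intro z hz
        simp only [sub_apply, smul_apply, smul_eq_mul,
          add_apply]
        rw [haR z hz]
        ring)
      intro τ
      have h2 := h1 τ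
      simp only [sub_apply, smul_apply, smul_eq_mul,
        add_apply] at h2
      linear_combination h2
    have hbΩ : ∀ τ, b τ = b1 * mu τ + b2 * nu τ := by
      have h1 := vanish (R : Set X) hspan (b - (b1 • mu + b2 • nu)) (by
        intro z hz
        simp only [sub_apply, smul_apply, smul_eq_mul,
          add_apply]
        rw [hbR z hz]
        ring)
      intro τ
      have h2 := h1 τ
      simp only [sub_apply, smul_apply, smul_eq_mul,
        add_apply] at h2
      linear_combination h2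
    have ha10 : a1 ≠ 0 := by
      intro h
      apply hA
      rw [haΩ t1, haΩ t2, h]
      ring
    set q := w 2 - a2 * w 1 - b1 * w 0 with hq
    have hq0 : q ≠ 0 := by
      intro h
      have h2 := hw ![-b1, -a2, 1] (by
          intro l; fin_cases l
          · exact L.neg_mem hb1
          · exact L.neg_mem ha2
          · exact L.one_mem) (by
          simp only [dt, Matrix.cons_val_zero, Matrix.cons_val_one, Matrix.cons_val]
          linear_combination h - hq)
      have h3 := congrFun h2 2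
      simp at h3
    obtain ⟨ρ, hρ0, hρ⟩ : ∃ ρ : Ω, ρ ≠ 0 ∧ a1 * w 1 * ρ ^ 2 - q * ρ + b2 * w 0 = 0 := by
      by_cases hb20 : b2 = 0
      · refine ⟨q / (a1 * w 1), div_ne_zero hq0 (mul_ne_zero ha10 w1), ?_⟩
        rw [hb20]
        field_simp
        ring
      · obtain ⟨ρ, hρ⟩ := IsAlgClosed.exists_root
          (Polynomial.C (a1 * w 1) * Polynomial.X ^ 2 + Polynomial.C (-q) * Polynomial.X
            + Polynomial.C (b2 * w 0) : Polynomial Ω) (by
            rw [Polynomial.degree_quadratic (mul_ne_zero ha10 w1)]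
            norm_num)
        simp only [Polynomial.IsRoot.def, Polynomial.eval_add, Polynomial.eval_mul,
          Polynomial.eval_C, Polynomial.eval_pow, Polynomial.eval_X] at hρ
        refine ⟨ρ, ?_, by linear_combination hρ⟩
        intro h
        rw [h] at hρ
        apply mul_ne_zero hb20 w0
        linear_combination hρ
    obtain ⟨t, h1, h2⟩ := two_forms mu nu τ1 τ2 hD ρ 1
    refine ⟨w 1, w 0 / ρ, t, ?_, ?_, ?_⟩
    · rw [h1]
      field_simp
    · rw [h2, mul_one]
    · rw [haΩ, hbΩ, h1, h2]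
      have e : w 1 * (a1 * ρ + a2 * 1) + w 0 / ρ * (b1 * ρ + b2 * 1)
          = (w 1 * (a1 * ρ + a2 * 1) * ρ + w 0 * (b1 * ρ + b2 * 1)) / ρ := by
        field_simp
      rw [e, div_eq_iff hρ0]
      linear_combination hρ + ρ * hq

/-- A vector orthogonal to all values. -/
lemma exists_killer (L : Subfield Ω) {Z : Type*} (P : Z → Prop) (G : Z → Fin 3 → Ω)
    (hG : ∀ t, P t → ∀ l, G t l ∈ L)
    (hdet : ∀ t1 t2 t3, P t1 → P t2 → P t3 → det3 (G t1) (G t2) (G t3) = 0) :
    ∃ u : Fin 3 → Ω, (∀ l, u l ∈ L) ∧ u ≠ 0 ∧ ∀ t, P t → dt u (G t) = 0 := by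
  by_cases h1 : ∃ t t', P t ∧ P t' ∧ cr (G t) (G t') ≠ 0
  · obtain ⟨t, t', ht, ht', hne⟩ := h1
    exact ⟨cr (G t) (G t'), cr_mem (hG t ht) (hG t' ht'), hne, fun s hs => hdet t t' s ht ht' hs⟩
  · push Not at h1
    by_cases h2 : ∃ t, P t ∧ G t ≠ 0
    · obtain ⟨t, ht, hne⟩ := h2
      have hpar : ∀ s, P s → ∃ r : Ω, G s = r • G t := fun s hs => par (h1 s t hs ht) hne
      by_cases h3 : G t 0 = 0 ∧ G t 1 = 0
      · refine ⟨![1, 0, 0], ?_, ?_, ?_⟩
        · intro l; fin_cases l
          · exact L.one_mem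
          · exact L.zero_mem
          · exact L.zero_mem
        · intro h
          have := congrFun h 0
          simp at this
        · intro s hs
          obtain ⟨r, hr⟩ := hpar s hs
          simp [dt, hr, h3.1]
      · refine ⟨![G t 1, -(G t 0), 0], ?_, ?_, ?_⟩
        · intro l; fin_cases l
          · exact hG t ht 1
          · exact L.neg_mem (hG t ht 0)
          · exact L.zero_mem
        · intro h
          apply h3
          have e0 := congrFun h 0
          have e1 := congrFun h 1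
          simp at e0 e1
          exact ⟨e1, e0⟩
        · intro s hs
          obtain ⟨r, hr⟩ := hpar s hs
          simp [dt, hr]
          ring
    · push Not at h2
      refine ⟨![1, 0, 0], ?_, ?_, ?_⟩
      · intro l; fin_cases l
        · exact L.one_mem
        · exact L.zero_mem
        · exact L.zero_mem
      · intro h
        have := congrFun h 0
        simp at this
      · intro s hs
        rw [h2 s hs]
        simp [dt]

end

section

variable {Ω X : Type*} [Field Ω] [AddCommGroup X] [Module Ω X]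

lemma eq_zero_of_dt {u a b c : Fin 3 → Ω} (h : det3 a b c ≠ 0) (ha : dt u a = 0)
    (hb : dt u b = 0) (hc : dt u c = 0) : u = 0 := by
  rw [det3_eq] at h
  simp only [dt] at ha hb hc
  apply ext3
  · apply (mul_eq_zero.1 (show ((a 1 * b 2 - a 2 * b 1) * c 0 + (a 2 * b 0 - a 0 * b 2) * c 1
      + (a 0 * b 1 - a 1 * b 0) * c 2) * u 0 = 0 by
      linear_combination (b 1 * c 2 - b 2 * c 1) * ha + (c 1 * a 2 - c 2 * a 1) * hb
        + (a 1 * b 2 - a 2 * b 1) * hc)).resolve_left h
  · apply (mul_eq_zero.1 (show ((a 1 * b 2 - a 2 * b 1) * c 0 + (a 2 * b 0 - a 0 * b 2) * c 1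
      + (a 0 * b 1 - a 1 * b 0) * c 2) * u 1 = 0 by
      linear_combination (b 2 * c 0 - b 0 * c 2) * ha + (c 2 * a 0 - c 0 * a 2) * hb
        + (a 2 * b 0 - a 0 * b 2) * hc)).resolve_left h
  · apply (mul_eq_zero.1 (show ((a 1 * b 2 - a 2 * b 1) * c 0 + (a 2 * b 0 - a 0 * b 2) * c 1
      + (a 0 * b 1 - a 1 * b 0) * c 2) * u 2 = 0 by
      linear_combination (b 0 * c 1 - b 1 * c 0) * ha + (c 0 * a 1 - c 1 * a 0) * hb
        + (a 0 * b 1 - a 1 * b 0) * hc)).resolve_left h

lemma dt_comm (a b : Fin 3 → Ω) : dt a b = dt b a := by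
  simp only [dt]
  ring

/-- Scalar product as a linear map. -/
def dtL (u : Fin 3 → Ω) : (Fin 3 → Ω) →ₗ[Ω] Ω where
  toFun := dt u
  map_add' := by
    intro x y
    simp only [dt, Pi.add_apply]
    ring
  map_smul' := by
    intro r x
    simp only [dt, Pi.smul_apply, smul_eq_mul, RingHom.id_apply]
    ring

lemma dtL_apply (u v : Fin 3 → Ω) : dtL u v = dt u v := rfl

lemma det3_T (u v w a b c : Fin 3 → Ω) :
    det3 ![dt u a, dt v a, dt w a] ![dt u b, dt v b, dt w b] ![dt u c, dt v c, dt w c]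
      = det3 u v w * det3 a b c := by
  simp only [det3_eq, dt, Matrix.cons_val_zero, Matrix.cons_val_one, Matrix.cons_val]
  ring

/-- **Lemma 2 (three forms).** -/
theorem three_forms [IsAlgClosed Ω] (L : Subfield Ω) (hL : ∃ s ∈ L, s ≠ 0 ∧ s ≠ 1)
    (R : AddSubgroup X) (hLR : ∀ a ∈ L, ∀ x ∈ R, a • x ∈ R)
    (hspan : Submodule.span Ω (R : Set X) = ⊤) :
    ∀ {k : ℕ} (F : MultilinearMap Ω (fun _ : Fin k => X) (Fin 3 → Ω)),
      (∀ z, (∀ i, z i ∈ R) → ∀ l, F z l ∈ L) →
      ∀ z1 z2 z3, (∀ i, z1 i ∈ R) → (∀ i, z2 i ∈ R) → (∀ i, z3 i ∈ R) →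
      det3 (F z1) (F z2) (F z3) ≠ 0 →
      ∀ w : Fin 3 → Ω, (∀ c : Fin 3 → Ω, (∀ l, c l ∈ L) → dt c w = 0 → c = 0) →
      ∃ z, F z = w := by
  intro k
  induction k with
  | zero =>
    intro F _ z1 z2 z3 _ _ _ hne
    exfalso
    apply hne
    rw [Subsingleton.elim z2 z1, det3_eq]
    ring
  | succ k ih =>
    intro F hr z1 z2 z3 hz1 hz2 hz3 hne w hw
    have hc : ∀ x t, F.curryLeft x t = F (Fin.cons x t) := fun x t => rfl
    have hrc : ∀ x ∈ R, ∀ t : Fin k → X, (∀ i, t i ∈ R) → ∀ l, F.curryLeft x t l ∈ L :=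
      fun x hx t ht l => hr _ (cons_mem (R := (R : Set X)) hx ht) l
    by_cases h1 : ∃ x ∈ R, ∃ t1 t2 t3 : Fin k → X, (∀ i, t1 i ∈ R) ∧ (∀ i, t2 i ∈ R) ∧
        (∀ i, t3 i ∈ R) ∧ det3 (F.curryLeft x t1) (F.curryLeft x t2) (F.curryLeft x t3) ≠ 0
    · obtain ⟨x, hx, t1, t2, t3, ht1, ht2, ht3, hne'⟩ := h1
      obtain ⟨z, hz⟩ := ih (F.curryLeft x) (hrc x hx) t1 t2 t3 ht1 ht2 ht3 hne' w hw
      exact ⟨Fin.cons x z, hz⟩
    push Not at h1
    have e1 : F z1 = F.curryLeft (z1 0) (Fin.tail z1) := by rw [hc, Fin.cons_self_tail]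
    have e2 : F z2 = F.curryLeft (z2 0) (Fin.tail z2) := by rw [hc, Fin.cons_self_tail]
    have e3 : F z3 = F.curryLeft (z3 0) (Fin.tail z3) := by rw [hc, Fin.cons_self_tail]
    have tl1 : ∀ i, Fin.tail z1 i ∈ R := fun i => hz1 i.succ
    have tl2 : ∀ i, Fin.tail z2 i ∈ R := fun i => hz2 i.succ
    have tl3 : ∀ i, Fin.tail z3 i ∈ R := fun i => hz3 i.succ
    by_cases h2 : ∃ x ∈ R, ∃ t1 t2 : Fin k → X, (∀ i, t1 i ∈ R) ∧ (∀ i, t2 i ∈ R) ∧
        cr (F.curryLeft x t1) (F.curryLeft x t2) ≠ 0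
    · obtain ⟨x, hx, t1, t2, ht1, ht2, hcr⟩ := h2
      set A := F.curryLeft x with hA
      set uA := cr (A t1) (A t2) with huA
      have uAL : ∀ l, uA l ∈ L := cr_mem (hrc x hx t1 ht1) (hrc x hx t2 ht2)
      have uAA : ∀ t : Fin k → X, (∀ i, t i ∈ R) → dt uA (A t) = 0 :=
        fun t ht => h1 x hx t1 t2 t ht1 ht2 ht
      obtain ⟨x', hx', t', ht', hB0⟩ : ∃ x' ∈ R, ∃ t' : Fin k → X, (∀ i, t' i ∈ R) ∧
          dt uA (F.curryLeft x' t') ≠ 0 := by
        by_contra hcon
        push Not at hcon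
        apply hcr
        refine eq_zero_of_dt hne ?_ ?_ ?_
        · rw [e1]; exact hcon _ (hz1 0) _ tl1
        · rw [e2]; exact hcon _ (hz2 0) _ tl2
        · rw [e3]; exact hcon _ (hz3 0) _ tl3
      set B := F.curryLeft x' with hB
      obtain ⟨uB, uBL, uB0, uBB⟩ := exists_killer L (fun t : Fin k → X => ∀ i, t i ∈ R)
        (fun t => B t) (fun t ht l => hrc x' hx' t ht l)
        (fun τ1 τ2 τ3 q1 q2 q3 => h1 x' hx' τ1 τ2 τ3 q1 q2 q3)
      have hcrAB : cr uA uB ≠ 0 := by
        intro h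
        obtain ⟨r, hr'⟩ := par h uB0
        apply hB0
        rw [hr']
        have h3 := uBB t' ht'
        simp only [dt, Pi.smul_apply, smul_eq_mul] at h3 ⊢
        linear_combination r * h3
      obtain ⟨u3, u3L, hD⟩ : ∃ u3 : Fin 3 → Ω, (∀ l, u3 l ∈ L) ∧ det3 uA uB u3 ≠ 0 := by
        by_cases q0 : cr uA uB 0 = 0
        · by_cases q1 : cr uA uB 1 = 0
          · by_cases q2 : cr uA uB 2 = 0
            · exact absurd (ext3 q0 q1 q2) hcrAB
            · refine ⟨![0, 0, 1], ?_, ?_⟩
              · intro l; fin_cases l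
                · exact L.zero_mem
                · exact L.zero_mem
                · exact L.one_mem
              · simpa [det3, dt] using q2
          · refine ⟨![0, 1, 0], ?_, ?_⟩
            · intro l; fin_cases l
              · exact L.zero_mem
              · exact L.one_mem
              · exact L.zero_mem
            · simpa [det3, dt] using q1
        · refine ⟨![1, 0, 0], ?_, ?_⟩
          · intro l; fin_cases l
            · exact L.one_mem
            · exact L.zero_mem
            · exact L.zero_mem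
          · simpa [det3, dt] using q0
      have uAA' : ∀ t, dt uA (A t) = 0 := vanish (R : Set X) hspan
        ((dtL uA).compMultilinearMap A) uAA
      have uBB' : ∀ t, dt uB (B t) = 0 := vanish (R : Set X) hspan
        ((dtL uB).compMultilinearMap B) uBB
      obtain ⟨s1, s2, t, k1, k2, k3⟩ := pencil L hL R hspan
        ((dtL uB).compMultilinearMap A) ((dtL u3).compMultilinearMap A)
        ((dtL uA).compMultilinearMap B) ((dtL u3).compMultilinearMap B)
        (fun z hz => dt_mem uBL (hrc x hx z hz)) (fun z hz => dt_mem u3L (hrc x hx z hz))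
        (fun z hz => dt_mem uAL (hrc x' hx' z hz)) (fun z hz => dt_mem u3L (hrc x' hx' z hz))
        t1 t2 ht1 ht2 (by
          change dt uB (A t1) * dt u3 (A t2) ≠ dt uB (A t2) * dt u3 (A t1)
          intro h
          apply hD
          rw [det3_eq]
          rw [show uA = cr (A t1) (A t2) from rfl]
          simp only [dt] at h
          simp only [cr, Matrix.cons_val_zero, Matrix.cons_val_one, Matrix.cons_val]
          linear_combination h) (by
          intro s hs τ1 τ2 τ3 q1 q2 q3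
          change det3 ![s * dt uA (B τ1), dt uB (A τ1), dt u3 (A τ1) + s * dt u3 (B τ1)]
            ![s * dt uA (B τ2), dt uB (A τ2), dt u3 (A τ2) + s * dt u3 (B τ2)]
            ![s * dt uA (B τ3), dt uB (A τ3), dt u3 (A τ3) + s * dt u3 (B τ3)] = 0
          have hx'' : x + s • x' ∈ R := R.add_mem hx (hLR s hs x' hx')
          have h3 := h1 (x + s • x') hx'' τ1 τ2 τ3 q1 q2 q3
          have h4 : ∀ τ, F.curryLeft (x + s • x') τ = A τ + s • B τ := by
            intro τ
            rw [map_add, map_smul]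
            rfl
          have h5 : ∀ τ : Fin k → X, (∀ i, τ i ∈ R) →
              (![s * dt uA (B τ), dt uB (A τ), dt u3 (A τ) + s * dt u3 (B τ)] : Fin 3 → Ω)
              = ![dt uA (A τ + s • B τ), dt uB (A τ + s • B τ), dt u3 (A τ + s • B τ)] := by
            intro τ hτ
            have q5 := uAA τ hτ
            have q6 := uBB τ hτ
            have lin : ∀ u : Fin 3 → Ω, dt u (A τ + s • B τ) = dt u (A τ) + s * dt u (B τ) := by
              intro u
              rw [← dtL_apply, map_add, map_smul]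
              rfl
            rw [lin, lin, lin, q5, q6]
            simp
          rw [h5 τ1 q1, h5 τ2 q2, h5 τ3 q3, det3_T, ← h4, ← h4, ← h4, h3, mul_zero])
        t' ht' hB0 ![dt uA w, dt uB w, dt u3 w] (by
          intro c hcL hc0
          have h6 : (fun l => c 0 * uA l + c 1 * uB l + c 2 * u3 l) = 0 := by
            apply hw
            · intro l
              exact L.add_mem (L.add_mem (L.mul_mem (hcL 0) (uAL l)) (L.mul_mem (hcL 1) (uBL l)))
                (L.mul_mem (hcL 2) (u3L l))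
            · simp only [dt, Matrix.cons_val_zero, Matrix.cons_val_one, Matrix.cons_val]
                at hc0 ⊢
              linear_combination hc0
          have g0 := congrFun h6 0
          have g1 := congrFun h6 1
          have g2 := congrFun h6 2
          simp only [Pi.zero_apply] at g0 g1 g2
          refine eq_zero_of_dt (a := ![uA 0, uB 0, u3 0]) (b := ![uA 1, uB 1, u3 1])
            (c := ![uA 2, uB 2, u3 2]) ?_ ?_ ?_ ?_
          · intro h
            apply hD
            rw [det3_eq] at h ⊢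
            simp only [Matrix.cons_val_zero, Matrix.cons_val_one, Matrix.cons_val] at h
            linear_combination h
          · simp only [dt, Matrix.cons_val_zero, Matrix.cons_val_one, Matrix.cons_val]
            exact g0
          · simp only [dt, Matrix.cons_val_zero, Matrix.cons_val_one, Matrix.cons_val]
            exact g1
          · simp only [dt, Matrix.cons_val_zero, Matrix.cons_val_one, Matrix.cons_val]
            exact g2)
      change s2 * dt uA (B t) = dt uA w at k1
      change s1 * dt uB (A t) = dt uB w at k2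
      change s1 * dt u3 (A t) + s2 * dt u3 (B t) = dt u3 w at k3
      refine ⟨Fin.cons (s1 • x + s2 • x') t, ?_⟩
      have h7 : F (Fin.cons (s1 • x + s2 • x') t) = s1 • A t + s2 • B t := by
        rw [← hc, map_add, map_smul, map_smul]
        rfl
      rw [h7, ← sub_eq_zero]
      have lin : ∀ u : Fin 3 → Ω, dt u (s1 • A t + s2 • B t - w)
          = s1 * dt u (A t) + s2 * dt u (B t) - dt u w := by
        intro u
        rw [← dtL_apply, map_sub, map_add, map_smul, map_smul]
        rfl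
      refine eq_zero_of_dt hD ?_ ?_ ?_
      · rw [dt_comm, lin, uAA' t, k1]; ring
      · rw [dt_comm, lin, uBB' t, k2]; ring
      · rw [dt_comm, lin, k3]; ring
    · push Not at h2
      -- case (3)
      set x1 := z1 0
      set x2 := z2 0
      set x3 := z3 0
      set τ1 := Fin.tail z1
      set τ2 := Fin.tail z2
      set τ3 := Fin.tail z3
      have v1 : F z1 ≠ 0 := by
        intro h; apply hne; rw [h, det3_eq]; simp
      have v2 : F z2 ≠ 0 := by
        intro h; apply hne; rw [h, det3_eq]; simp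
      have v3 : F z3 ≠ 0 := by
        intro h; apply hne; rw [h, det3_eq]; simp
      obtain ⟨β, hβ⟩ : ∃ r, F.curryLeft x2 τ1 = r • F z2 := by
        refine par ?_ v2
        rw [e2]
        exact h2 x2 (hz2 0) τ1 τ2 tl1 tl2
      obtain ⟨γ, hγ⟩ : ∃ r, F.curryLeft x3 τ1 = r • F z3 := by
        refine par ?_ v3
        rw [e3]
        exact h2 x3 (hz3 0) τ1 τ3 tl1 tl3
      obtain ⟨α2, hα2⟩ : ∃ r, F.curryLeft x1 τ2 = r • F z1 := by
        refine par ?_ v1
        rw [e1]
        exact h2 x1 (hz1 0) τ2 τ1 tl2 tl1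
      obtain ⟨α3, hα3⟩ : ∃ r, F.curryLeft x1 τ3 = r • F z1 := by
        refine par ?_ v1
        rw [e1]
        exact h2 x1 (hz1 0) τ3 τ1 tl3 tl1
      have hβ0 : β ≠ 0 := by
        intro h0
        have h3 := h2 (x1 + x2) (R.add_mem (hz1 0) (hz2 0)) τ1 τ2 tl1 tl2
        rw [map_add] at h3
        simp only [add_apply] at h3
        rw [hα2, hβ, h0, zero_smul, add_zero, ← e1, ← e2] at h3
        apply hne
        have g0 := congrFun h3 0
        have g1 := congrFun h3 1
        have g2 := congrFun h3 2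
        simp only [cr, Matrix.cons_val_zero, Matrix.cons_val_one, Matrix.cons_val, Pi.add_apply,
          Pi.smul_apply, smul_eq_mul, Pi.zero_apply] at g0 g1 g2
        rw [det3_eq]
        linear_combination F z3 0 * g0 + F z3 1 * g1 + F z3 2 * g2
      have hγ0 : γ ≠ 0 := by
        intro h0
        have h3 := h2 (x1 + x3) (R.add_mem (hz1 0) (hz3 0)) τ1 τ3 tl1 tl3
        rw [map_add] at h3
        simp only [add_apply] at h3
        rw [hα3, hγ, h0, zero_smul, add_zero, ← e1, ← e3] at h3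
        apply hne
        have g0 := congrFun h3 0
        have g1 := congrFun h3 1
        have g2 := congrFun h3 2
        simp only [cr, Matrix.cons_val_zero, Matrix.cons_val_one, Matrix.cons_val, Pi.add_apply,
          Pi.smul_apply, smul_eq_mul, Pi.zero_apply] at g0 g1 g2
        rw [det3_eq]
        linear_combination (-F z2 0) * g0 + (-F z2 1) * g1 + (-F z2 2) * g2
      have hne2 : det3 (F z1) (F.curryLeft x2 τ1) (F.curryLeft x3 τ1) ≠ 0 := by
        rw [hβ, hγ]
        have : det3 (F z1) (β • F z2) (γ • F z3) = β * γ * det3 (F z1) (F z2) (F z3) := by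
          simp only [det3_eq, Pi.smul_apply, smul_eq_mul]
          ring
        rw [this]
        exact mul_ne_zero (mul_ne_zero hβ0 hγ0) hne
      obtain ⟨a, b, c, h⟩ := cramer _ _ _ w hne2
      refine ⟨Fin.cons (a • x1 + b • x2 + c • x3) τ1, ?_⟩
      rw [← hc, map_add, map_add, map_smul, map_smul, map_smul]
      rw [e1] at h
      exact h

end

end Pool.Agent.H74C3
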