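import Pool.Agent.Helper74.C3.Ord
import Pool.Agent.Helper74.C3.Three

/-!
# All `w0 + w1 y + w2 y ^ 2` with `w0 w1 w2 ≠ 0` are values (characteristic three)
-/

open Matrix

namespace Pool.Agent.H74C3

open Pool.Agent.H24ML Pool.Agent.H88KL

universe u

section

variable {K Ω : Type u} [Field K] [Field Ω] [Algebra K Ω] {m : ℕ} {L : IntermediateField K Ω}
  {ρ : Ω}

/-- `1, ρ, ρ ^ 2` are independent over `L`. -/
lemma indep3 [CharP Ω 3] (hρ : ρ ∉ L) (hρ3 : ρ ^ 3 ∈ L) {a b g : Ω} (ha : a ∈ L) (hb : b ∈ L)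
    (hg : g ∈ L) (h : a + b * ρ + g * ρ ^ 2 = 0) : a = 0 ∧ b = 0 ∧ g = 0 := by
  have h3 := three0 (Ω := Ω)
  have lin : ∀ a b : Ω, a ∈ L → b ∈ L → a + b * ρ = 0 → a = 0 ∧ b = 0 := by
    intro a b ha hb h
    have hb0 : b = 0 := by
      by_contra hb0
      apply hρ
      have : ρ = -a / b := by
        rw [eq_div_iff hb0]
        linear_combination h
      rw [this]
      exact div_mem (neg_mem ha) hb
    refine ⟨?_, hb0⟩
    rw [hb0] at h
    linear_combination h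
  by_cases hg0 : g = 0
  · rw [hg0, zero_mul, add_zero] at h
    obtain ⟨h1, h2⟩ := lin a b ha hb h
    exact ⟨h1, h2, hg0⟩
  exfalso
  obtain ⟨a', ha', haa⟩ : ∃ a', a' ∈ L ∧ a = g * a' :=
    ⟨a / g, div_mem ha hg, by rw [mul_div_cancel₀ _ hg0]⟩
  obtain ⟨b', hb', hbb⟩ : ∃ b', b' ∈ L ∧ b = g * b' :=
    ⟨b / g, div_mem hb hg, by rw [mul_div_cancel₀ _ hg0]⟩
  have h1 : ρ ^ 2 = -b' * ρ - a' := by
    have : g * (ρ ^ 2 + b' * ρ + a') = 0 := by rw [haa, hbb] at h; linear_combination h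
    have := (mul_eq_zero.1 this).resolve_left hg0
    linear_combination this
  obtain ⟨e1, e2⟩ := lin (a' * b' - ρ ^ 3) (b' ^ 2 - a')
    (sub_mem (mul_mem ha' hb') hρ3) (sub_mem (pow_mem hb' 2) ha') (by
      linear_combination (-ρ + b') * h1)
  have h4 : (ρ - b') ^ 3 = 0 := by
    linear_combination (-e1) - b' * e2 + (-(ρ ^ 2 * b') + ρ * b' ^ 2) * h3
  have h5 : ρ - b' = 0 := pow_eq_zero_iff (by norm_num) |>.1 h4
  apply hρ
  rw [sub_eq_zero.1 h5]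
  exact hb'

lemma rho_pow (hρ3 : ρ ^ 3 ∈ L) (u v : Fin 3) :
    ∃ k ∈ L, ρ ^ u.val * ρ ^ v.val = k * ρ ^ (u + v).val := by
  fin_cases u <;> fin_cases v
  · exact ⟨1, one_mem L, by simp⟩
  · exact ⟨1, one_mem L, by simp⟩
  · exact ⟨1, one_mem L, by simp⟩
  · exact ⟨1, one_mem L, by simp⟩
  · refine ⟨1, one_mem L, ?_⟩
    simp
    ring
  · refine ⟨ρ ^ 3, hρ3, ?_⟩
    simp
    ring
  · exact ⟨1, one_mem L, by simp⟩
  · refine ⟨ρ ^ 3, hρ3, ?_⟩
    simp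
    ring
  · refine ⟨ρ ^ 3, hρ3, ?_⟩
    simp
    ring

/-- The rational form. -/
def RD (L : IntermediateField K Ω) (ρ : Ω) (hρ3 : ρ ^ 3 ∈ L) : Subalgebra L (M3 Ω) where
  carrier := {A | ∀ r s : Fin 3, ∃ a ∈ L, A r s = a * ρ ^ (s - r).val}
  mul_mem' := by
    intro A B hA hB r s
    have h1 : ∀ t : Fin 3, ∃ a ∈ L, A r t * B t s = a * ρ ^ (s - r).val := by
      intro t
      obtain ⟨a, ha, e1⟩ := hA r t
      obtain ⟨b, hb, e2⟩ := hB t s
      obtain ⟨k, hk, e3⟩ := rho_pow (L := L) hρ3 (t - r) (s - t)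
      rw [show t - r + (s - t) = s - r by abel] at e3
      refine ⟨a * b * k, mul_mem (mul_mem ha hb) hk, ?_⟩
      rw [e1, e2]
      linear_combination a * b * e3
    obtain ⟨a0, h0, e0⟩ := h1 0
    obtain ⟨a1, h1', e1⟩ := h1 1
    obtain ⟨a2, h2, e2⟩ := h1 2
    refine ⟨a0 + a1 + a2, add_mem (add_mem h0 h1') h2, ?_⟩
    rw [Matrix.mul_apply, Fin.sum_univ_three, e0, e1, e2]
    ring
  add_mem' := by
    intro A B hA hB r s
    obtain ⟨a, ha, e1⟩ := hA r s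
    obtain ⟨b, hb, e2⟩ := hB r s
    refine ⟨a + b, add_mem ha hb, ?_⟩
    rw [Matrix.add_apply, e1, e2]
    ring
  algebraMap_mem' := by
    intro a r s
    have h1 : (algebraMap L (M3 Ω) a) r s = if r = s then (a : Ω) else 0 := by
      rw [Matrix.algebraMap_matrix_apply]
      rfl
    rw [h1]
    by_cases h : r = s
    · refine ⟨a, a.2, ?_⟩
      rw [if_pos h, h, sub_self]
      simp
    · refine ⟨0, zero_mem L, ?_⟩
      rw [if_neg h, zero_mul]

lemma mem_RD (hρ3 : ρ ^ 3 ∈ L) {A : M3 Ω} :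
    A ∈ RD L ρ hρ3 ↔ ∀ r s : Fin 3, ∃ a ∈ L, A r s = a * ρ ^ (s - r).val := Iff.rfl

/-- The projections onto the matrices of order at most `j`. -/
def Tp : ℕ → M3 Ω →ₗ[Ω] M3 Ω
  | 0 =>
    { toFun := fun A r s => A 0 (s - r)
      map_add' := fun A B => rfl
      map_smul' := fun a A => rfl }
  | 1 =>
    { toFun := fun A r s => A 0 (s - r) + cs r * (A 1 (1 + (s - r)) - A 0 (s - r))
      map_add' := by
        intro A B
        ext r s
        change (A + B) 0 (s - r) + cs r * ((A + B) 1 (1 + (s - r)) - (A + B) 0 (s - r))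
          = (A 0 (s - r) + cs r * (A 1 (1 + (s - r)) - A 0 (s - r)))
            + (B 0 (s - r) + cs r * (B 1 (1 + (s - r)) - B 0 (s - r)))
        simp only [Matrix.add_apply]
        ring
      map_smul' := by
        intro a A
        ext r s
        change (a • A) 0 (s - r) + cs r * ((a • A) 1 (1 + (s - r)) - (a • A) 0 (s - r))
          = a * (A 0 (s - r) + cs r * (A 1 (1 + (s - r)) - A 0 (s - r)))
        simp only [Matrix.smul_apply, smul_eq_mul]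
        ring }
  | _ + 2 => LinearMap.id

lemma Tp_od [CharP Ω 3] : ∀ (j : ℕ) (A : M3 Ω), Od j (Tp j A)
  | 0, A => by
    change sh (Tp 0 A) = Tp 0 A
    ext r s
    rw [sh_apply]
    change A 0 (s + 1 - (r + 1)) = A 0 (s - r)
    rw [add_sub_add_right_eq_sub]
  | 1, A => by
    change sh (sh (Tp 1 A) - Tp 1 A) = sh (Tp 1 A) - Tp 1 A
    have h : ∀ r s, (sh (Tp 1 A) - Tp 1 A) r s = A 1 (1 + (s - r)) - A 0 (s - r) := by
      intro r s
      rw [Matrix.sub_apply, sh_apply]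
      change A 0 (s + 1 - (r + 1)) + cs (r + 1) * (A 1 (1 + (s + 1 - (r + 1))) - A 0 (s + 1 - (r + 1)))
        - (A 0 (s - r) + cs r * (A 1 (1 + (s - r)) - A 0 (s - r))) = _
      rw [add_sub_add_right_eq_sub, cs_add, cs_one]
      ring
    ext r s
    rw [sh_apply, h, h, add_sub_add_right_eq_sub]
  | n + 2, A => Od.ge_two n _

lemma Tp_eq [CharP Ω 3] : ∀ (j : ℕ) (A : M3 Ω), Od j A → Tp j A = A
  | 0, A, h => by
    have h1 : ∀ r s, A (r + 1) (s + 1) = A r s := fun r s => congrFun (congrFun h r) s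
    have a1 : A 1 1 = A 0 0 := h1 0 0
    have a2 : A 2 2 = A 1 1 := h1 1 1
    have b1 : A 1 2 = A 0 1 := h1 0 1
    have b2 : A 2 0 = A 1 2 := h1 1 2
    have c1 : A 1 0 = A 0 2 := h1 0 2
    have c2 : A 2 1 = A 1 0 := h1 1 0
    ext r s
    change A 0 (s - r) = A r s
    fin_cases r <;> fin_cases s <;> simp [a1, a2, b1, b2, c1, c2] <;> rfl
  | 1, A, h => by
    have h3 := three0 (Ω := Ω)
    have h0 : ∀ s, A 2 (s + 1 + 1) - A 1 (s + 1) = A 1 (s + 1) - A 0 s := fun s =>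
      congrFun (congrFun h 0) s
    ext r s
    change A 0 (s - r) + cs r * (A 1 (1 + (s - r)) - A 0 (s - r)) = A r s
    have hr : r = 0 ∨ r = 1 ∨ r = 2 := by fin_cases r <;> decide
    rcases hr with rfl | rfl | rfl
    · rw [cs_zero, sub_zero, zero_mul, add_zero]
    · rw [cs_one, add_sub_cancel]
      ring
    · have e1 : s - 2 + 1 + 1 = s := by
        fin_cases s <;> decide
      have h4 := h0 (s - 2)
      rw [e1] at h4
      rw [cs_two, add_comm 1 (s - 2)]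
      linear_combination -h4
  | n + 2, A, h => rfl

lemma Tp_mem (hρ3 : ρ ^ 3 ∈ L) : ∀ (j : ℕ) (A : M3 Ω), A ∈ RD L ρ hρ3 → Tp j A ∈ RD L ρ hρ3
  | 0, A, h => by
    intro r s
    obtain ⟨a, ha, e⟩ := h 0 (s - r)
    rw [sub_zero] at e
    exact ⟨a, ha, e⟩
  | 1, A, h => by
    intro r s
    obtain ⟨a, ha, e⟩ := h 0 (s - r)
    obtain ⟨b, hb, e'⟩ := h 1 (1 + (s - r))
    rw [sub_zero] at e
    rw [add_sub_cancel_left] at e'
    refine ⟨a + cs r * (b - a), add_mem ha (mul_mem (cs_mem r) (sub_mem hb ha)), ?_⟩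
    change A 0 (s - r) + cs r * (A 1 (1 + (s - r)) - A 0 (s - r)) = _
    rw [e, e']
    ring
  | n + 2, A, h => h

/-- The rational form spans. -/
lemma RD_span (hρ3 : ρ ^ 3 ∈ L) (hρ0 : ρ ≠ 0) :
    Submodule.span Ω (RD L ρ hρ3 : Set (M3 Ω)) = ⊤ := by
  rw [eq_top_iff]
  intro A _
  have h1 : A = ∑ r, ∑ s, (A r s * (ρ ^ (s - r).val)⁻¹) •
      (Matrix.single r s (ρ ^ (s - r).val) : M3 Ω) := by
    conv_lhs => rw [Matrix.matrix_eq_sum_single A]
    refine Finset.sum_congr rfl fun r _ => Finset.sum_congr rfl fun s _ => ?_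
    rw [Matrix.smul_single, smul_eq_mul, mul_assoc, inv_mul_cancel₀ (pow_ne_zero _ hρ0), mul_one]
  rw [h1]
  refine Submodule.sum_mem _ fun r _ => Submodule.sum_mem _ fun s _ =>
    Submodule.smul_mem _ _ (Submodule.subset_span ?_)
  intro r' s'
  by_cases h : r = r' ∧ s = s'
  · obtain ⟨rfl, rfl⟩ := h
    exact ⟨1, one_mem L, by simp⟩
  · exact ⟨0, zero_mem L, by rw [Matrix.single_apply, if_neg h, zero_mul]⟩

/-- The first row divided by `1, ρ, ρ ^ 2`. -/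
def row (ρ : Ω) : M3 Ω →ₗ[Ω] (Fin 3 → Ω) where
  toFun := fun A => ![A 0 0, A 0 1 * ρ⁻¹, A 0 2 * (ρ ^ 2)⁻¹]
  map_add' := by
    intro A B
    funext i
    fin_cases i <;> simp [add_mul]
  map_smul' := by
    intro a A
    funext i
    fin_cases i <;> simp [mul_assoc]

/-- All `w0 + w1 y + w2 y ^ 2` with `w0 w1 w2 ≠ 0` are values. -/
theorem unip_value [CharP Ω 3] [IsAlgClosed Ω] (hρ : ρ ∉ L) (hρ3 : ρ ^ 3 ∈ L)
    (c : Equiv.Perm (Fin m) → K)
    (h : ∃ z : Fin m → M3 Ω, ∀ a : Ω, evalML Ω c z ≠ a • (1 : M3 Ω))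
    (w0 w1 w2 : K) (h0 : w0 ≠ 0) (h1 : w1 ≠ 0) (h2 : w2 ≠ 0) :
    ∃ z : Fin m → M3 Ω, evalML Ω c z = algebraMap K Ω w0 • (1 : M3 Ω)
      + algebraMap K Ω w1 • yM + algebraMap K Ω w2 • (yM * yM) := by
  have h3 := three0 (Ω := Ω)
  have hρ0 : ρ ≠ 0 := fun h => hρ (h ▸ zero_mem L)
  obtain ⟨n, ⟨z, hz, hbad⟩, hmin⟩ := exists_min (fun A : M3 Ω => ¬ Sc A) c (by
    obtain ⟨z, hz⟩ := h
    exact ⟨z, fun hs => by
      obtain ⟨a, ha⟩ := Sc_iff.1 hs
      exact hz a ha.symm⟩)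
  have hinv := od_zero c n fun i hi z' hz' hzi => not_not.1 (hmin i hi z' hz' hzi)
  -- a homogeneous nonscalar value
  obtain ⟨d, hd⟩ : ∃ d : Fin m → Fin 3, ¬ Sc (evalML Ω c fun i => comp (d i) (z i)) := by
    by_contra hcon
    push Not at hcon
    apply hbad
    rw [expand]
    exact Submodule.sum_mem _ fun d _ => hcon d
  set z0 : Fin m → M3 Ω := fun i => comp (d i) (z i) with hz0
  have hz0o : ∀ j, Od (n j) (z0 j) := fun j => Od.comp (d j) (n j) (hz j)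
  have hz0h : ∀ j, Hom (d j) (z0 j) := fun j => comp_hom (d j) (z j)
  have he : ∑ j, d j ≠ 0 := by
    intro h0
    have h4 := inv_hom (hinv z0 hz0o) (evalML_hom c z0 d hz0h)
    rw [h0, yp_zero] at h4
    exact hd (Sc_iff.2 ⟨_, h4.symm⟩)
  have hne : evalML Ω c z0 ≠ 0 := by
    intro h0
    apply hd
    rw [h0]
    exact Submodule.zero_mem _
  obtain ⟨a0, v0, ha0, hv0, e0⟩ := slot_change c n hinv d z0 hz0o hz0h he hne 0
  obtain ⟨a1, v1, ha1, hv1, e1⟩ := slot_change c n hinv d z0 hz0o hz0h he hne 1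
  obtain ⟨a2, v2, ha2, hv2, e2⟩ := slot_change c n hinv d z0 hz0o hz0h he hne 2
  -- the forms
  set F : MultilinearMap Ω (fun _ : Fin m => M3 Ω) (Fin 3 → Ω) :=
    (row ρ).compMultilinearMap ((evalML Ω c).compLinearMap fun i => Tp (n i)) with hF
  have hFa : ∀ z, F z = row ρ (evalML Ω c fun i => Tp (n i) (z i)) := fun z => rfl
  have hFz : ∀ z, (∀ j, Od (n j) (z j)) → F z = row ρ (evalML Ω c z) := by
    intro z hz
    rw [hFa]
    congr 2
    funext i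
    exact Tp_eq (n i) (z i) (hz i)
  have hne0 : det3 (F a0) (F a1) (F a2) ≠ 0 := by
    rw [hFz a0 ha0, hFz a1 ha1, hFz a2 ha2, e0, e1, e2]
    have r0 : row ρ (v0 • yp 0) = ![v0, 0, 0] := by
      funext i
      fin_cases i <;> simp [row, yp]
    have r1 : row ρ (v1 • yp 1) = ![0, v1 * ρ⁻¹, 0] := by
      funext i
      fin_cases i <;> simp [row, yp]
    have r2 : row ρ (v2 • yp 2) = ![0, 0, v2 * (ρ ^ 2)⁻¹] := by
      funext i
      fin_cases i <;> simp [row, yp]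
    rw [r0, r1, r2, det3_eq]
    simp only [Matrix.cons_val_zero, Matrix.cons_val_one, Matrix.cons_val]
    have : v0 * (v1 * ρ⁻¹) * (v2 * (ρ ^ 2)⁻¹) ≠ 0 :=
      mul_ne_zero (mul_ne_zero hv0 (mul_ne_zero hv1 (inv_ne_zero hρ0)))
        (mul_ne_zero hv2 (inv_ne_zero (pow_ne_zero 2 hρ0)))
    intro h
    apply this
    linear_combination h
  -- rational arguments
  have hvan : ∀ (G : (Fin 3 → Ω) →ₗ[Ω] Ω) (a : Fin m → M3 Ω), G (F a) ≠ 0 →
      ∃ b : Fin m → M3 Ω, (∀ i, b i ∈ RD L ρ hρ3) ∧ G (F b) ≠ 0 := by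
    intro G a ha
    by_contra hcon
    push Not at hcon
    exact ha (vanish (RD L ρ hρ3 : Set (M3 Ω)) (RD_span hρ3 hρ0) (G.compMultilinearMap F)
      (fun z hz => hcon z hz) a)
  obtain ⟨b2, hb2, n2⟩ := hvan (dtL (cr (F a0) (F a1))) a2 hne0
  obtain ⟨b1, hb1, n1⟩ := hvan (dtL (cr (F b2) (F a0))) a1 (by
    intro h
    apply n2
    have : dt (cr (F b2) (F a0)) (F a1) = 0 := h
    change dt (cr (F a0) (F a1)) (F b2) = 0
    simp only [dt, cr, Matrix.cons_val_zero, Matrix.cons_val_one, Matrix.cons_val] at this ⊢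
    linear_combination this)
  obtain ⟨b0, hb0, n0⟩ := hvan (dtL (cr (F b1) (F b2))) a0 (by
    intro h
    apply n1
    have : dt (cr (F b1) (F b2)) (F a0) = 0 := h
    change dt (cr (F b2) (F a0)) (F b1) = 0
    simp only [dt, cr, Matrix.cons_val_zero, Matrix.cons_val_one, Matrix.cons_val] at this ⊢
    linear_combination this)
  have hrat : ∀ z, (∀ i, z i ∈ RD L ρ hρ3) → ∀ l, F z l ∈ L := by
    intro z hz l
    have hm := evalML_mem L (RD L ρ hρ3) c (fun i => Tp (n i) (z i))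
      fun i => Tp_mem hρ3 (n i) (z i) (hz i)
    rw [hFa]
    obtain ⟨x0, hx0, q0⟩ := hm 0 0
    obtain ⟨x1, hx1, q1⟩ := hm 0 1
    obtain ⟨x2, hx2, q2⟩ := hm 0 2
    fin_cases l
    · change evalML Ω c (fun i => Tp (n i) (z i)) 0 0 ∈ L
      rw [q0]
      simpa using hx0
    · change evalML Ω c (fun i => Tp (n i) (z i)) 0 1 * ρ⁻¹ ∈ L
      rw [q1]
      have : x1 * ρ ^ ((1 : Fin 3) - 0).val * ρ⁻¹ = x1 := by
        simp [mul_assoc, mul_inv_cancel₀ hρ0]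
      rw [this]
      exact hx1
    · change evalML Ω c (fun i => Tp (n i) (z i)) 0 2 * (ρ ^ 2)⁻¹ ∈ L
      rw [q2]
      have : x2 * ρ ^ ((2 : Fin 3) - 0).val * (ρ ^ 2)⁻¹ = x2 := by
        have e : ((2 : Fin 3) - 0).val = 2 := rfl
        rw [e, mul_assoc, mul_inv_cancel₀ (pow_ne_zero 2 hρ0), mul_one]
      rw [this]
      exact hx2
  -- the target
  set w : Fin 3 → Ω := ![algebraMap K Ω w0, algebraMap K Ω w1 * ρ⁻¹,
    algebraMap K Ω w2 * (ρ ^ 2)⁻¹] with hwdef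
  have hw : ∀ c : Fin 3 → Ω, (∀ l, c l ∈ L) → dt c w = 0 → c = 0 := by
    intro c hc hcw
    have e1 : c 2 * algebraMap K Ω w2 + c 1 * algebraMap K Ω w1 * ρ
        + c 0 * algebraMap K Ω w0 * ρ ^ 2 = 0 := by
      have e2 : ρ ^ 2 * dt c w = 0 := by rw [hcw, mul_zero]
      simp only [dt, hwdef, Matrix.cons_val_zero, Matrix.cons_val_one, Matrix.cons_val] at e2
      have e3 : ρ * ρ⁻¹ = 1 := mul_inv_cancel₀ hρ0
      have e4 : ρ ^ 2 * (ρ ^ 2)⁻¹ = 1 := mul_inv_cancel₀ (pow_ne_zero 2 hρ0)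
      linear_combination e2 - c 1 * algebraMap K Ω w1 * ρ * e3 - c 2 * algebraMap K Ω w2 * e4
    obtain ⟨q2, q1, q0⟩ := indep3 hρ hρ3 (mul_mem (hc 2) (L.algebraMap_mem w2))
      (mul_mem (hc 1) (L.algebraMap_mem w1)) (mul_mem (hc 0) (L.algebraMap_mem w0)) e1
    apply ext3
    · exact (mul_eq_zero.1 q0).resolve_right ((map_ne_zero _).2 h0)
    · exact (mul_eq_zero.1 q1).resolve_right ((map_ne_zero _).2 h1)
    · exact (mul_eq_zero.1 q2).resolve_right ((map_ne_zero _).2 h2)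
  obtain ⟨v, hv⟩ := three_forms L.toSubfield
    ⟨-1, neg_mem (one_mem L), neg_ne_zero.2 one_ne_zero, fun h => one_ne_zero (α := Ω) (by
      linear_combination h3 + h)⟩ (RD L ρ hρ3).toSubmodule.toAddSubgroup
    (fun a ha y hy => (RD L ρ hρ3).smul_mem hy (⟨a, ha⟩ : L)) (RD_span hρ3 hρ0) F
    (fun z hz l => hrat z hz l) b1 b2 b0 hb1 hb2 hb0 n0 w hw
  refine ⟨fun i => Tp (n i) (v i), ?_⟩
  have hsh := hinv (fun i => Tp (n i) (v i)) fun j => Tp_od (n j) (v j)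
  rw [inv_eq hsh]
  rw [hFa] at hv
  have q0 : evalML Ω c (fun i => Tp (n i) (v i)) 0 0 = algebraMap K Ω w0 := congrFun hv 0
  have q1 : evalML Ω c (fun i => Tp (n i) (v i)) 0 1 * ρ⁻¹ = algebraMap K Ω w1 * ρ⁻¹ :=
    congrFun hv 1
  have q2 : evalML Ω c (fun i => Tp (n i) (v i)) 0 2 * (ρ ^ 2)⁻¹
      = algebraMap K Ω w2 * (ρ ^ 2)⁻¹ := congrFun hv 2
  rw [q0, mul_right_cancel₀ (inv_ne_zero hρ0) q1,
    mul_right_cancel₀ (inv_ne_zero (pow_ne_zero 2 hρ0)) q2]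

end

end Pool.Agent.H74C3
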