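import Pool.Agent.Helper74.C3.B
import Pool.Agent.Helper74.C3.C
import Pool.Agent.Helper74.C3.D
import Pool.Agent.Helper74.C3.Unip
import Pool.Agent.Helper74.C3.Fld
import Pool.Agent.Helper24.ML.Sim
import Pool.Agent.Helper24.ML.Struct
import Pool.Agent.Helper24.ML.Descent

/-!
# Characteristic three: the assembly

Every matrix is a value of a multilinear polynomial whose trace does not vanish identically.
-/

open Matrix

namespace Pool.Agent.H74C3

open Pool.Agent.H24ML Pool.Agent.H88KL

universe u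

/-- A homogeneous point of nonzero trace. -/
theorem exists_homog {K Ω : Type u} [Field K] [Field Ω] [Algebra K Ω] {m : ℕ}
    (c : Equiv.Perm (Fin m) → K) (z : Fin m → M3 Ω) (h : trace (evalML Ω c z) ≠ 0) :
    ∃ (d : Fin m → Fin 3) (z0 : Fin m → M3 Ω), (∀ i, Hom (d i) (z0 i)) ∧ ∑ i, d i = 0 ∧
      trace (evalML Ω c z0) ≠ 0 := by
  classical
  have h1 : evalML Ω c z = ∑ d : Fin m → Fin 3, evalML Ω c fun i => comp (d i) (z i) := by
    have key := (evalML Ω c).map_sum (fun i (e : Fin 3) => comp e (z i))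
    rw [← key]
    congr 1
    funext i
    rw [Fin.sum_univ_three, sum_comp]
  rw [h1, trace_sum] at h
  obtain ⟨d, -, hd⟩ := Finset.exists_ne_zero_of_sum_ne_zero h
  refine ⟨d, fun i => comp (d i) (z i), fun i => comp_hom _ _, ?_, hd⟩
  by_contra hne
  apply hd
  have h2 : Hom (∑ i, d i) (evalML Ω c fun i => comp (d i) (z i)) :=
    evalML_hom c _ d fun i => comp_hom _ _
  have h3 : ∀ r : Fin 3, evalML Ω c (fun i => comp (d i) (z i)) r r = 0 := by
    intro r
    refine h2 r r fun h => hne ?_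
    have h4 : r + 0 = r + ∑ i, d i := by rw [add_zero]; exact h
    exact (add_left_cancel h4).symm
  rw [trace_fin_three, h3, h3, h3]
  ring

private theorem trace_map46 {K Ω : Type u} [Field K] [Field Ω] [Algebra K Ω] (A : M3 K) :
    trace (A.map (algebraMap K Ω)) = algebraMap K Ω (trace A) := by
  rw [trace_fin_three, trace_fin_three, map_add, map_add]
  rfl

/-- Values over `Ω` of matrices over `K`, up to similarity. -/
theorem val_of_sim {K Ω : Type u} [Field K] [IsAlgClosed K] [Field Ω] [Algebra K Ω] {m : ℕ}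
    (c : Equiv.Perm (Fin m) → K) {A B : M3 K}
    (hB : ∃ z : Fin m → M3 Ω, evalML Ω c z = B.map (algebraMap K Ω)) (hS : Sim B A) :
    ∃ z : Fin m → M3 K, evalML K c z = A := by
  obtain ⟨x, hx⟩ := descend (L := Ω) c B hB
  obtain ⟨g, hg⟩ := hS
  exact ⟨fun j => (g : M3 K) * x j * ((g⁻¹ : (M3 K)ˣ) : M3 K), by rw [evalML_conj, hx, hg]⟩

private theorem pos46 {K : Type u} [Field K] [CharP K 3] {m : ℕ} (c : Equiv.Perm (Fin m) → K)
    (ht : ∃ z : Fin m → M3 K, trace (evalML K c z) ≠ 0) : 0 < m := by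
  rcases Nat.eq_zero_or_pos m with rfl | h
  · exfalso
    obtain ⟨z, hz⟩ := ht
    apply hz
    rw [evalML_apply, trace_sum]
    refine Finset.sum_eq_zero fun σ _ => ?_
    rw [List.ofFn_zero, List.prod_nil, trace_smul, trace_one, Fintype.card_fin]
    have h3 : ((3 : ℕ) : K) = 0 := CharP.cast_eq_zero K 3
    rw [h3, smul_zero]
  · exact h

private theorem exists_avoid46 {K : Type u} [Field K] [IsAlgClosed K] (a b c : K) :
    ∃ n : K, n ≠ a ∧ n ≠ b ∧ n ≠ c := by
  classical
  obtain ⟨n, hn⟩ := Infinite.exists_notMem_finset ({a, b, c} : Finset K)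
  simp only [Finset.mem_insert, Finset.mem_singleton, not_or] at hn
  exact ⟨n, hn⟩

/-- The circulant matrix. -/
private def circ46 {K : Type u} [Field K] (a b c : K) : M3 K := !![a, b, c; c, a, b; b, c, a]

private theorem circ_map46 {K Ω : Type u} [Field K] [Field Ω] [Algebra K Ω] (a b c : K) :
    (circ46 a b c).map (algebraMap K Ω) = algebraMap K Ω a • (1 : M3 Ω)
      + algebraMap K Ω b • yM + algebraMap K Ω c • (yM * yM) := by
  ext i j
  fin_cases i <;> fin_cases j <;>
    simp [circ46, yM, Algebra.algebraMap_eq_smul_one]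

/-- **Characteristic three.** -/
theorem char3 {K : Type u} [Field K] [IsAlgClosed K] [CharP K 3] {m : ℕ}
    (c : Equiv.Perm (Fin m) → K) (ht : ∃ z : Fin m → M3 K, trace (evalML K c z) ≠ 0)
    (A : M3 K) : ∃ z : Fin m → M3 K, evalML K c z = A := by
  have hm := pos46 c ht
  obtain ⟨Ω, _, _, _, τ, L, L', -, hτ, hτ3, hquad, hρ, hρ3⟩ := exists_fields K
  have : CharP Ω 3 := charP_of_injective_algebraMap (algebraMap K Ω).injective 3
  have h3 : (3 : K) = 0 := by exact_mod_cast CharP.cast_eq_zero K 3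
  obtain ⟨z, hz⟩ := ht
  have hz' : trace (evalML Ω c fun j => (z j).map (algebraMap K Ω)) ≠ 0 := by
    have h1 := evalML_map (Algebra.ofId K Ω) c z
    have h2 : ∀ M : M3 K, M.map (Algebra.ofId K Ω) = M.map (algebraMap K Ω) := fun M => rfl
    simp only [h2] at h1
    rw [h1, trace_map46]
    exact fun h => hz ((map_eq_zero _).1 h)
  obtain ⟨d, z0, hz0, hd, htr⟩ := exists_homog c _ hz'
  have hne : ∃ z : Fin m → M3 Ω, evalML Ω c z ≠ 0 := by
    refine ⟨z0, fun h => htr ?_⟩
    rw [h, trace_zero]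
  have hns : ∃ z : Fin m → M3 Ω, ∀ a : Ω, evalML Ω c z ≠ a • (1 : M3 Ω) := by
    refine ⟨z0, fun a h => htr ?_⟩
    rw [h, trace_smul, trace_one, Fintype.card_fin]
    have h3 : ((3 : ℕ) : Ω) = 0 := CharP.cast_eq_zero Ω 3
    rw [h3, smul_zero]
  have huni : ∀ w0 w1 w2 : K, w0 ≠ 0 → w1 ≠ 0 → w2 ≠ 0 → Sim (circ46 w0 w1 w2) A →
      ∃ z : Fin m → M3 K, evalML K c z = A := by
    intro w0 w1 w2 h0 h1 h2 hS
    refine val_of_sim (Ω := Ω) c ?_ hS
    rw [circ_map46]
    exact unip_value hρ hρ3 c hns w0 w1 w2 h0 h1 h2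
  rcases trichotomy A with ⟨v, hv⟩ | ⟨a, p, q, hp, hq, hA⟩ | ⟨a, hA⟩
  · by_cases hTS : trace A ≠ 0 ∨ c2 A ≠ 0
    · exact descend (L := Ω) c A (nd_value hτ hτ3 hquad c d hd z0 hz0 htr A v hv hTS)
    · push Not at hTS
      obtain ⟨hT, hS⟩ := hTS
      obtain ⟨l, hl⟩ := IsAlgClosed.exists_pow_nat_eq (det A) (n := 3) (by norm_num)
      obtain ⟨n, hn0, hn1, hn2⟩ := exists_avoid46 (0 : K) (-1) (1 - l)
      refine huni (l - 1 + n) (1 + n) n (fun h => hn2 ?_) (fun h => hn1 ?_) hn0 ?_
      · linear_combination h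
      · linear_combination h
      · refine sim_of_cyclic _ A ![1, 0, 0] v ?_ hv ?_ ?_ ?_
        · have : det (Cyc (circ46 (l - 1 + n) (1 + n) n) ![1, 0, 0]) = -1 := by
            rw [det_fin_three]
            simp [Cyc, circ46, dotProduct, Fin.sum_univ_three]
            linear_combination (-n ^ 2 - n) * h3
          rw [this]
          exact neg_ne_zero.2 one_ne_zero
        · rw [hT, trace_fin_three]
          simp [circ46]
          linear_combination (l - 1 + n) * h3
        · rw [hS]
          simp [circ46, c2]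
          linear_combination ((l - 1 + n) ^ 2 - (1 + n) * n) * h3
        · rw [← hl, det_fin_three]
          simp [circ46]
          linear_combination (3 * l ^ 2 * n + 9 * l * n ^ 2 + 9 * n ^ 3 - (l + 3 * n) *
            ((l - 1 + n) * (1 + n) + (1 + n) * n + n * (l - 1 + n))) * h3
  · by_cases ht : q ⬝ᵥ p = 0
    · obtain ⟨n, hn0, hn1, -⟩ := exists_avoid46 (0 : K) (-a) 0
      refine huni (a + n) n n (fun h => hn1 ?_) hn0 hn0 ?_
      · linear_combination h
      · have e : circ46 (a + n) n n = a • (1 : M3 K) + vecMulVec ![n, n, n] ![1, 1, 1] := by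
          ext i j
          fin_cases i <;> fin_cases j <;> simp [circ46]
        rw [e, hA]
        refine sim_rank_one a _ _ p q (fun h => hn0 ?_) (fun h => ?_) hp hq ?_
        · exact congrFun h 0
        · exact one_ne_zero (congrFun h 0)
        · rw [ht, dotProduct, Fin.sum_univ_three]
          simp
          linear_combination n * h3
    · refine val_of_sim (Ω := Ω) (B := diagonal ![a, a, a + q ⬝ᵥ p]) c ?_ ?_
      · obtain ⟨z, hz⟩ := diag_value hτ hτ3 c d hd z0 hz0 htr ![a, a, a + q ⬝ᵥ p] (by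
          simp only [Matrix.cons_val_zero, Matrix.cons_val_one, Matrix.cons_val]
          intro h
          apply ht
          linear_combination h - a * h3)
        refine ⟨z, ?_⟩
        rw [hz, diagonal_map (map_zero _)]
      · have e : (diagonal ![a, a, a + q ⬝ᵥ p] : M3 K) =
            a • (1 : M3 K) + vecMulVec ![0, 0, 1] ![0, 0, q ⬝ᵥ p] := by
          ext i j
          fin_cases i <;> fin_cases j <;> simp
        rw [e, hA]
        refine sim_rank_one a _ _ p q (fun h => ?_) (fun h => ht ?_) hp hq ?_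
        · exact one_ne_zero (congrFun h 2)
        · exact congrFun h 2
        · rw [dotProduct, Fin.sum_univ_three]
          simp
  · refine descend (L := Ω) c A ?_
    obtain ⟨z, hz⟩ := scalar_value hm c hne (algebraMap K Ω a)
    refine ⟨z, ?_⟩
    rw [hz, hA]
    ext i j
    by_cases hij : i = j <;> simp [hij]

end Pool.Agent.H74C3
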