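import Pool.Agent.Helper74.C3.Three
import Pool.Agent.Helper88.KL.Ev

/-!
# Frames: homogeneous matrices and the cyclic form

`Hom e A`: the matrix `A` is homogeneous of degree `e : Fin 3`, i.e. `A r s = 0` for `s ≠ r + e`.
`yM` is the cyclic permutation matrix (degree `1`). `cs r` is `r : Fin 3` as an element of `Ω`.
`InE L x v`: `v r = al + be (x + r) + ga (x + r) ^ 2` with `al, be, ga ∈ L`.
-/

open Matrix

namespace Pool.Agent.H74C3

open Pool.Agent.H24ML Pool.Agent.H88KL

universe u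

section

variable {Ω : Type u} [Field Ω]

/-- Homogeneous matrices. -/
def Hom (e : Fin 3) (A : M3 Ω) : Prop := ∀ r s : Fin 3, s ≠ r + e → A r s = 0

/-- The cyclic permutation matrix. -/
def yM : M3 Ω := !![0, 1, 0; 0, 0, 1; 1, 0, 0]

/-- `r : Fin 3` as a scalar. -/
def cs (r : Fin 3) : Ω := (r.val : Ω)

@[simp] lemma cs_zero : (cs 0 : Ω) = 0 := by simp [cs]
@[simp] lemma cs_one : (cs 1 : Ω) = 1 := by simp [cs]
@[simp] lemma cs_two : (cs 2 : Ω) = 2 := by simp [cs]

lemma three0 [CharP Ω 3] : (3 : Ω) = 0 := by exact_mod_cast CharP.cast_eq_zero Ω 3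

lemma cs_add [CharP Ω 3] (r e : Fin 3) : (cs (r + e) : Ω) = cs r + cs e := by
  have h := three0 (Ω := Ω)
  fin_cases r <;> fin_cases e <;> simp [cs] <;>
  first | linear_combination -h | linear_combination h | linear_combination (0 : Ω) * h

lemma cs_cube [CharP Ω 3] (r : Fin 3) : (cs r : Ω) ^ 3 = cs r := by
  have h := three0 (Ω := Ω)
  fin_cases r <;> simp [cs]
  linear_combination 2 * h

lemma Hom.mul {e f : Fin 3} {A B : M3 Ω} (hA : Hom e A) (hB : Hom f B) : Hom (e + f) (A * B) := by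
  intro r s hs
  rw [Matrix.mul_apply]
  refine Finset.sum_eq_zero fun k _ => ?_
  by_cases hk : k = r + e
  · rw [hB k s (by rw [hk, add_assoc]; exact hs), mul_zero]
  · rw [hA r k hk, zero_mul]

/-- The entries of a product of homogeneous matrices. -/
lemma Hom.mul_entry {e : Fin 3} {A B : M3 Ω} (hA : Hom e A) (r s : Fin 3) :
    (A * B) r s = A r (r + e) * B (r + e) s := by
  rw [Matrix.mul_apply]
  refine Finset.sum_eq_single_of_mem _ (Finset.mem_univ _) fun k _ hk => ?_
  rw [hA r k hk, zero_mul]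

lemma Hom.one : Hom 0 (1 : M3 Ω) := by
  intro r s hs
  rw [add_zero] at hs
  exact Matrix.one_apply_ne hs.symm

lemma Hom.zero {e : Fin 3} : Hom e (0 : M3 Ω) := fun _ _ _ => rfl

lemma Hom.add {e : Fin 3} {A B : M3 Ω} (hA : Hom e A) (hB : Hom e B) : Hom e (A + B) := by
  intro r s hs
  rw [Matrix.add_apply, hA r s hs, hB r s hs, add_zero]

lemma Hom.sub {e : Fin 3} {A B : M3 Ω} (hA : Hom e A) (hB : Hom e B) : Hom e (A - B) := by
  intro r s hs
  rw [Matrix.sub_apply, hA r s hs, hB r s hs, sub_zero]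

lemma Hom.smul {e : Fin 3} {A : M3 Ω} (a : Ω) (hA : Hom e A) : Hom e (a • A) := by
  intro r s hs
  rw [Matrix.smul_apply, hA r s hs, smul_zero]

lemma Hom.yM : Hom 1 (yM : M3 Ω) := by
  intro r s hs
  fin_cases r <;> fin_cases s <;> first | rfl | (exfalso; exact hs rfl)

/-- The homogeneous component of degree `e`. -/
def comp (e : Fin 3) (A : M3 Ω) : M3 Ω := fun r s => if s = r + e then A r s else 0

lemma comp_hom (e : Fin 3) (A : M3 Ω) : Hom e (comp e A) := by
  intro r s hs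
  simp [comp, hs]

lemma sum_comp (A : M3 Ω) : comp 0 A + comp 1 A + comp 2 A = A := by
  ext r s
  fin_cases r <;> fin_cases s <;> simp [comp]

end

section

variable {K L Ω : Type*} [Field K] [Field L] [Field Ω] [Algebra K L] [Algebra L Ω] [Algebra K Ω]
  [IsScalarTower K L Ω] {m : ℕ}

private lemma prod_mem_graded (G : Fin 3 → Submodule L (M3 Ω)) (h1 : (1 : M3 Ω) ∈ G 0)
    (hmul : ∀ e f A B, A ∈ G e → B ∈ G f → A * B ∈ G (e + f)) :
    ∀ (m : ℕ) (a : Fin m → M3 Ω) (d : Fin m → Fin 3), (∀ i, a i ∈ G (d i)) →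
      (List.ofFn a).prod ∈ G (∑ i, d i) := by
  intro m
  induction m with
  | zero =>
    intro a d _
    simpa using h1
  | succ m ih =>
    intro a d ha
    rw [List.ofFn_succ, List.prod_cons, Fin.sum_univ_succ]
    exact hmul _ _ _ _ (ha 0) (ih _ _ fun i => ha i.succ)

/-- Values of a multilinear polynomial at homogeneous elements of a graded algebra. -/
theorem evalML_graded (G : Fin 3 → Submodule L (M3 Ω)) (h1 : (1 : M3 Ω) ∈ G 0)
    (hmul : ∀ e f A B, A ∈ G e → B ∈ G f → A * B ∈ G (e + f))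
    (c : Equiv.Perm (Fin m) → K) (z : Fin m → M3 Ω) (d : Fin m → Fin 3)
    (hz : ∀ i, z i ∈ G (d i)) : evalML Ω c z ∈ G (∑ i, d i) := by
  rw [evalML_apply]
  refine Submodule.sum_mem _ fun σ _ => ?_
  have h2 : algebraMap K Ω (c σ) • (List.ofFn fun k => z (σ k)).prod =
      algebraMap K L (c σ) • (List.ofFn fun k => z (σ k)).prod := by
    rw [IsScalarTower.algebraMap_apply K L Ω, algebraMap_smul]
  rw [h2]
  refine Submodule.smul_mem _ _ ?_
  have h3 := prod_mem_graded G h1 hmul m (fun k => z (σ k)) (fun k => d (σ k)) fun k => hz _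
  rwa [Equiv.sum_comp σ d] at h3

end

section

variable {K Ω : Type u} [Field K] [Field Ω] [Algebra K Ω] {m : ℕ}

/-- Homogeneous matrices as a submodule. -/
def HomS (e : Fin 3) : Submodule Ω (M3 Ω) where
  carrier := {A | Hom e A}
  add_mem' := Hom.add
  zero_mem' := Hom.zero
  smul_mem' := fun a _ h => Hom.smul a h

/-- Values at homogeneous matrices are homogeneous. -/
theorem evalML_hom (c : Equiv.Perm (Fin m) → K) (z : Fin m → M3 Ω) (d : Fin m → Fin 3)
    (hz : ∀ i, Hom (d i) (z i)) : Hom (∑ i, d i) (evalML Ω c z) :=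
  evalML_graded (K := K) (L := Ω) HomS Hom.one (fun _ _ _ _ hA hB => Hom.mul hA hB) c z d hz

/-- The cyclic form of the diagonal matrices. -/
def InE (L : IntermediateField K Ω) (x : Ω) (v : Fin 3 → Ω) : Prop :=
  ∃ al ∈ L, ∃ be ∈ L, ∃ ga ∈ L, ∀ r, v r = al + be * (x + cs r) + ga * (x + cs r) ^ 2

variable {L : IntermediateField K Ω} {x : Ω}

lemma cs_mem (r : Fin 3) : (cs r : Ω) ∈ L := natCast_mem L _

lemma InE.add {v w : Fin 3 → Ω} (hv : InE L x v) (hw : InE L x w) :
    InE L x (fun r => v r + w r) := by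
  obtain ⟨a, ha, b, hb, g, hg, h⟩ := hv
  obtain ⟨a', ha', b', hb', g', hg', h'⟩ := hw
  exact ⟨a + a', add_mem ha ha', b + b', add_mem hb hb', g + g', add_mem hg hg', fun r => by
    beta_reduce; rw [h, h']; ring⟩

lemma InE.smul {v : Fin 3 → Ω} {s : Ω} (hs : s ∈ L) (hv : InE L x v) :
    InE L x (fun r => s * v r) := by
  obtain ⟨a, ha, b, hb, g, hg, h⟩ := hv
  exact ⟨s * a, mul_mem hs ha, s * b, mul_mem hs hb, s * g, mul_mem hs hg, fun r => by
    beta_reduce; rw [h]; ring⟩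

lemma InE.const {s : Ω} (hs : s ∈ L) : InE L x (fun _ => s) :=
  ⟨s, hs, 0, zero_mem _, 0, zero_mem _, fun r => by ring⟩

/-- The shift. -/
lemma InE.shift [CharP Ω 3] {v : Fin 3 → Ω} (e : Fin 3) (hv : InE L x v) :
    InE L x (fun r => v (r + e)) := by
  obtain ⟨a, ha, b, hb, g, hg, h⟩ := hv
  have he : (cs e : Ω) ∈ L := cs_mem e
  refine ⟨a + b * cs e + g * cs e ^ 2, add_mem (add_mem ha (mul_mem hb he))
    (mul_mem hg (pow_mem he 2)), b + 2 * g * cs e, add_mem hb (mul_mem (mul_mem (by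
      exact_mod_cast natCast_mem L 2) hg) he), g, hg, fun r => ?_⟩
  beta_reduce
  rw [h, cs_add]
  ring

lemma InE.mul [CharP Ω 3] (hx3 : x ^ 3 - x ∈ L) {v w : Fin 3 → Ω} (hv : InE L x v)
    (hw : InE L x w) : InE L x (fun r => v r * w r) := by
  obtain ⟨a, ha, b, hb, g, hg, h⟩ := hv
  obtain ⟨a', ha', b', hb', g', hg', h'⟩ := hw
  set q := x ^ 3 - x with hq
  refine ⟨a * a' + (b * g' + g * b') * q, add_mem (mul_mem ha ha') (mul_mem (add_mem
      (mul_mem hb hg') (mul_mem hg hb')) hx3),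
    a * b' + b * a' + (b * g' + g * b') + g * g' * q,
    add_mem (add_mem (add_mem (mul_mem ha hb') (mul_mem hb ha')) (add_mem
      (mul_mem hb hg') (mul_mem hg hb'))) (mul_mem (mul_mem hg hg') hx3),
    a * g' + b * b' + g * a' + g * g', add_mem (add_mem (add_mem (mul_mem ha hg')
      (mul_mem hb hb')) (mul_mem hg ha')) (mul_mem hg hg'), fun r => ?_⟩
  have e3 : (x + cs r) ^ 3 = (x + cs r) + q := by
    have h3 := three0 (Ω := Ω)
    have h4 := cs_cube (Ω := Ω) r
    rw [hq]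
    linear_combination (x ^ 2 * cs r + x * cs r ^ 2) * h3 + h4
  beta_reduce
  rw [h, h']
  linear_combination (b * g' + g * b' + g * g' * (x + cs r)) * e3

/-- `1, x, x ^ 2` are independent over `L`. -/
lemma indep [CharP Ω 3] (hx : x ∉ L) (hx3 : x ^ 3 - x ∈ L) {a b g : Ω} (ha : a ∈ L) (hb : b ∈ L)
    (hg : g ∈ L) (h : a + b * x + g * x ^ 2 = 0) : a = 0 ∧ b = 0 ∧ g = 0 := by
  have h3 := three0 (Ω := Ω)
  have lin : ∀ a b : Ω, a ∈ L → b ∈ L → a + b * x = 0 → a = 0 ∧ b = 0 := by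
    intro a b ha hb h
    have hb0 : b = 0 := by
      by_contra hb0
      apply hx
      have : x = -a / b := by
        rw [eq_div_iff hb0]
        linear_combination h
      rw [this]
      exact div_mem (neg_mem ha) hb
    refine ⟨?_, hb0⟩
    rw [hb0] at h
    linear_combination h
  by_cases hg0 : g = 0
  · rw [hg0] at h
    obtain ⟨h1, h2⟩ := lin a b ha hb (by linear_combination h)
    exact ⟨h1, h2, hg0⟩
  · exfalso
    set q := x ^ 3 - x with hq
    -- `x ^ 2 = - (a + b x) / g`, remainder of `X ^ 3 - X - q`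
    have h5 := lin (-q * g ^ 2 + a * b) (b ^ 2 - a * g - g ^ 2) (by
      exact add_mem (mul_mem (neg_mem hx3) (pow_mem hg 2)) (mul_mem ha hb)) (by
      exact sub_mem (sub_mem (pow_mem hb 2) (mul_mem ha hg)) (pow_mem hg 2)) (by
      rw [hq]
      linear_combination (b - g * x) * h)
    obtain ⟨h6, h7⟩ := h5
    -- `r = b / g` is a root of `X ^ 3 - X - q`
    have h8 : (b / g) ^ 3 - b / g = q := by
      field_simp
      linear_combination b * h7 + g * h6
    have h9 : (x - b / g) * ((x - b / g) - 1) * ((x - b / g) + 1) = 0 := by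
      have : (x - b / g) * ((x - b / g) - 1) * ((x - b / g) + 1)
          = (x ^ 3 - x) - ((b / g) ^ 3 - b / g) - 3 * (x ^ 2 * (b / g) - x * (b / g) ^ 2) := by
        ring
      rw [this, h8, h3, hq]
      ring
    have hr : b / g ∈ L := div_mem hb hg
    rcases mul_eq_zero.1 h9 with h9 | h9
    · rcases mul_eq_zero.1 h9 with h9 | h9
      · exact hx (by rw [sub_eq_zero.1 h9]; exact hr)
      · exact hx (by
          have : x = b / g + 1 := by linear_combination h9
          rw [this]; exact add_mem hr (one_mem _))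
    · exact hx (by
        have : x = b / g - 1 := by linear_combination h9
        rw [this]; exact sub_mem hr (one_mem _))

/-- An element of the cyclic form with a zero entry is zero. -/
lemma InE.eq_zero [CharP Ω 3] (hx : x ∉ L) (hx3 : x ^ 3 - x ∈ L) {v : Fin 3 → Ω}
    (hv : InE L x v) {r : Fin 3} (hr : v r = 0) : ∀ s, v s = 0 := by
  obtain ⟨a, ha, b, hb, g, hg, h⟩ := hv
  have he : (cs r : Ω) ∈ L := cs_mem r
  have h1 := indep hx hx3 (a := a + b * cs r + g * cs r ^ 2) (b := b + 2 * g * cs r) (g := g)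
    (add_mem (add_mem ha (mul_mem hb he)) (mul_mem hg (pow_mem he 2)))
    (add_mem hb (mul_mem (mul_mem (by exact_mod_cast natCast_mem L 2) hg) he)) hg (by
      rw [← hr, h r]
      ring)
  obtain ⟨h1, h2, h3⟩ := h1
  rw [h3] at h2 h1
  have hb0 : b = 0 := by linear_combination h2
  rw [hb0] at h1
  have ha0 : a = 0 := by linear_combination h1
  intro s
  rw [h s, h3, hb0, ha0]
  ring

/-- The graded algebra of the cyclic form. -/
def GE (L : IntermediateField K Ω) (x : Ω) (e : Fin 3) : Submodule L (M3 Ω) where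
  carrier := {A | Hom e A ∧ InE L x (fun r => A r (r + e))}
  add_mem' := fun h1 h2 => ⟨h1.1.add h2.1, h1.2.add h2.2⟩
  zero_mem' := ⟨Hom.zero, InE.const (zero_mem _)⟩
  smul_mem' := fun a _ h => ⟨Hom.smul (a : Ω) h.1, InE.smul a.2 h.2⟩

lemma GE.one : (1 : M3 Ω) ∈ GE L x 0 := by
  refine ⟨Hom.one, ?_⟩
  have : (fun r : Fin 3 => (1 : M3 Ω) r (r + 0)) = fun _ => 1 := by
    funext r
    rw [add_zero, Matrix.one_apply_eq]
  rw [this]
  exact InE.const (one_mem _)

lemma GE.mul [CharP Ω 3] (hx3 : x ^ 3 - x ∈ L) (e f : Fin 3) (A B : M3 Ω) (hA : A ∈ GE L x e)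
    (hB : B ∈ GE L x f) : A * B ∈ GE L x (e + f) := by
  refine ⟨hA.1.mul hB.1, ?_⟩
  have h1 : (fun r : Fin 3 => (A * B) r (r + (e + f))) =
      fun r => A r (r + e) * B (r + e) ((r + e) + f) := by
    funext r
    rw [hA.1.mul_entry, add_assoc]
  rw [h1]
  exact InE.mul hx3 hA.2 (InE.shift e hB.2)

lemma GE.y : (yM : M3 Ω) ∈ GE L x 1 := by
  refine ⟨Hom.yM, ?_⟩
  have : (fun r : Fin 3 => (yM : M3 Ω) r (r + 1)) = fun _ => 1 := by
    funext r
    fin_cases r <;> rfl
  rw [this]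
  exact InE.const (one_mem _)

/-- Values at homogeneous elements of the cyclic form. -/
theorem evalML_GE [CharP Ω 3] (hx3 : x ^ 3 - x ∈ L) (c : Equiv.Perm (Fin m) → K)
    (z : Fin m → M3 Ω) (d : Fin m → Fin 3) (hz : ∀ i, z i ∈ GE L x (d i)) :
    evalML Ω c z ∈ GE L x (∑ i, d i) :=
  evalML_graded (K := K) (L := L) (GE L x) GE.one (GE.mul hx3) c z d hz

/-- Second coefficient and determinant of a homogeneous perturbation of a diagonal matrix. -/
lemma charpoly_pert {D C : M3 Ω} (hD : Hom 0 D) (hC : Hom 1 C) :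
    trace (D + C) = D 0 0 + D 1 1 + D 2 2 ∧
    c2 (D + C) = D 0 0 * D 1 1 + D 0 0 * D 2 2 + D 1 1 * D 2 2 ∧
    det (D + C) = D 0 0 * D 1 1 * D 2 2 + C 0 1 * C 1 2 * C 2 0 := by
  have d01 : D 0 1 = 0 := hD 0 1 (by decide)
  have d02 : D 0 2 = 0 := hD 0 2 (by decide)
  have d10 : D 1 0 = 0 := hD 1 0 (by decide)
  have d12 : D 1 2 = 0 := hD 1 2 (by decide)
  have d20 : D 2 0 = 0 := hD 2 0 (by decide)
  have d21 : D 2 1 = 0 := hD 2 1 (by decide)
  have c00 : C 0 0 = 0 := hC 0 0 (by decide)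
  have c02 : C 0 2 = 0 := hC 0 2 (by decide)
  have c10 : C 1 0 = 0 := hC 1 0 (by decide)
  have c11 : C 1 1 = 0 := hC 1 1 (by decide)
  have c21 : C 2 1 = 0 := hC 2 1 (by decide)
  have c22 : C 2 2 = 0 := hC 2 2 (by decide)
  refine ⟨?_, ?_, ?_⟩
  · rw [trace_fin_three]
    simp only [Matrix.add_apply, c00, c11, c22, add_zero]
  · simp only [H24ML.c2, Matrix.add_apply, d01, d02, d10, d12, d20, d21, c00, c02, c10, c11, c21,
      c22]
    ring
  · rw [det_fin_three]
    simp only [Matrix.add_apply, d01, d02, d10, d12, d20, d21, c00, c02, c10, c11, c21, c22]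
    ring

end

end Pool.Agent.H74C3
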