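import Pool.Agent.Helper74.C3.Frame

/-!
# Frames, part 2: homogeneous evaluation as a multilinear map on `Fin 3 → Ω`
-/

open Matrix

namespace Pool.Agent.H74C3

open Pool.Agent.H24ML Pool.Agent.H88KL

universe u

section

variable {Ω : Type u} [Field Ω]

/-- The homogeneous matrix of degree `e` with entries `v r` at `(r, r + e)`. -/
def hv (e : Fin 3) : (Fin 3 → Ω) →ₗ[Ω] M3 Ω where
  toFun v := fun r s => if s = r + e then v r else 0
  map_add' := by
    intro v w
    ext r s
    change (if s = r + e then v r + w r else 0) =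
      (if s = r + e then v r else 0) + (if s = r + e then w r else 0)
    by_cases h : s = r + e <;> simp [h]
  map_smul' := by
    intro a v
    ext r s
    change (if s = r + e then a * v r else 0) = a * (if s = r + e then v r else 0)
    by_cases h : s = r + e <;> simp [h]

lemma hv_apply (e : Fin 3) (v : Fin 3 → Ω) (r s : Fin 3) :
    hv e v r s = if s = r + e then v r else 0 := rfl

lemma hv_hom (e : Fin 3) (v : Fin 3 → Ω) : Hom e (hv e v) := by
  intro r s hs
  rw [hv_apply, if_neg hs]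

lemma hv_entry (e : Fin 3) (v : Fin 3 → Ω) (r : Fin 3) : hv e v r (r + e) = v r := by
  rw [hv_apply, if_pos rfl]

lemma Hom.eq_hv {e : Fin 3} {A : M3 Ω} (hA : Hom e A) : A = hv e fun r => A r (r + e) := by
  ext r s
  rw [hv_apply]
  by_cases h : s = r + e
  · rw [if_pos h, h]
  · rw [if_neg h, hA r s h]

/-- A homogeneous matrix of degree zero is diagonal. -/
lemma Hom.eq_diagonal {A : M3 Ω} (hA : Hom 0 A) : A = diagonal fun r => A r r := by
  ext r s
  by_cases h : r = s
  · rw [h, diagonal_apply_eq]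
  · rw [diagonal_apply_ne _ h, hA r s (by rw [add_zero]; exact fun e => h e.symm)]

end

section

variable {K Ω : Type u} [Field K] [Field Ω] [Algebra K Ω] {m : ℕ}

/-- Homogeneous evaluation. -/
noncomputable def PF (c : Equiv.Perm (Fin m) → K) (d : Fin m → Fin 3) :
    MultilinearMap Ω (fun _ : Fin m => Fin 3 → Ω) (M3 Ω) :=
  (evalML Ω c).compLinearMap fun i => hv (d i)

lemma PF_apply (c : Equiv.Perm (Fin m) → K) (d : Fin m → Fin 3) (f : Fin m → Fin 3 → Ω) :
    PF c d f = evalML Ω c fun i => hv (d i) (f i) := rfl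

lemma PF_hom (c : Equiv.Perm (Fin m) → K) (d : Fin m → Fin 3) (f : Fin m → Fin 3 → Ω) :
    Hom (∑ i, d i) (PF c d f) := evalML_hom c _ d fun _ => hv_hom _ _

variable (L : IntermediateField K Ω) (x : Ω)

/-- The rational points of the cyclic form. -/
def RE : AddSubgroup (Fin 3 → Ω) where
  carrier := {v | InE L x v}
  zero_mem' := InE.const (zero_mem _)
  add_mem' := fun h1 h2 => InE.add h1 h2
  neg_mem' := by
    intro v hv
    have h := InE.smul (s := -1) (neg_mem (one_mem L)) hv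
    have e : (fun r => (-1 : Ω) * v r) = -v := by
      funext r
      simp
    rwa [e] at h

variable {L x}

lemma mem_RE {v : Fin 3 → Ω} : v ∈ RE L x ↔ InE L x v := Iff.rfl

lemma RE.smul {a : Ω} (ha : a ∈ L) {v : Fin 3 → Ω} (hv : v ∈ RE L x) : a • v ∈ RE L x :=
  InE.smul ha hv

lemma hv_mem_GE {e : Fin 3} {v : Fin 3 → Ω} (h : InE L x v) : hv e v ∈ GE L x e := by
  refine ⟨hv_hom e v, ?_⟩
  have : (fun r => hv e v r (r + e)) = v := by
    funext r
    exact hv_entry e v r
  rw [this]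
  exact h

/-- The cyclic form spans. -/
lemma RE_span [CharP Ω 3] : Submodule.span Ω (RE L x : Set (Fin 3 → Ω)) = ⊤ := by
  have h3 := three0 (Ω := Ω)
  rw [eq_top_iff]
  intro v _
  have m0 : (fun _ => (1 : Ω) : Fin 3 → Ω) ∈ RE L x := InE.const (one_mem _)
  have m1 : (fun r => x + cs r : Fin 3 → Ω) ∈ RE L x :=
    ⟨0, zero_mem _, 1, one_mem _, 0, zero_mem _, fun r => by ring⟩
  have m2 : (fun r => (x + cs r) ^ 2 : Fin 3 → Ω) ∈ RE L x :=
    ⟨0, zero_mem _, 0, zero_mem _, 1, one_mem _, fun r => by ring⟩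
  set A := v 0 with hA
  set B := v 2 - v 1 with hB
  set C := -(v 0 + v 1 + v 2) with hC
  have e : v = (A - B * x + C * x ^ 2) • (fun _ => (1 : Ω)) + (B + C * x) • (fun r => x + cs r)
      + C • (fun r => (x + cs r) ^ 2) := by
    funext r
    fin_cases r
    · simp only [Pi.add_apply, Pi.smul_apply, smul_eq_mul, Fin.zero_eta, cs_zero, hA, hB, hC]
      linear_combination (v 0 + v 1 + v 2) * x ^ 2 * h3
    · simp only [Pi.add_apply, Pi.smul_apply, smul_eq_mul, Fin.mk_one, cs_one, hA, hB, hC]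
      linear_combination ((v 0 + v 1 + v 2) * x ^ 2 + (v 0 + v 1 + v 2) * x + v 1) * h3
    · simp only [Pi.add_apply, Pi.smul_apply, smul_eq_mul, Fin.reduceFinMk, cs_two, hA, hB, hC]
      linear_combination ((v 0 + v 1 + v 2) * x ^ 2 + 2 * (v 0 + v 1 + v 2) * x + v 0 + 2 * v 1
        + v 2) * h3
  rw [e]
  exact add_mem (add_mem (Submodule.smul_mem _ _ (Submodule.subset_span m0))
    (Submodule.smul_mem _ _ (Submodule.subset_span m1)))
    (Submodule.smul_mem _ _ (Submodule.subset_span m2))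

/-- The trace as a linear map. -/
noncomputable def trL : M3 Ω →ₗ[Ω] Ω := Matrix.traceLinearMap (Fin 3) Ω Ω

lemma trL_apply (A : M3 Ω) : trL A = trace A := rfl

/-- Some rational homogeneous value has nonzero trace. -/
lemma exists_rational [CharP Ω 3] (c : Equiv.Perm (Fin m) → K) (d : Fin m → Fin 3)
    (z0 : Fin m → M3 Ω) (hz0 : ∀ i, Hom (d i) (z0 i)) (htr : trace (evalML Ω c z0) ≠ 0) :
    ∃ f : Fin m → Fin 3 → Ω, (∀ i, f i ∈ RE L x) ∧ trace (PF c d f) ≠ 0 := by
  by_contra hcon
  push Not at hcon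
  apply htr
  have h1 := vanish (RE L x : Set (Fin 3 → Ω)) RE_span (trL.compMultilinearMap (PF c d)) hcon
    (fun i r => z0 i r (r + d i))
  have h2 : (fun i => hv (d i) (fun r => z0 i r (r + d i))) = z0 := by
    funext i
    exact (hz0 i).eq_hv.symm
  change trace (PF c d fun i r => z0 i r (r + d i)) = 0 at h1
  rw [PF_apply, h2] at h1
  exact h1

/-- The coordinates `(al, be, ga)` of a diagonal matrix `al + be X + ga X ^ 2`,
`X = diag(x, x + 1, x + 2)`. -/
def coordE (x : Ω) (D : M3 Ω) : Fin 3 → Ω :=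
  ![D 0 0 - (D 2 2 - D 1 1) * x - (D 0 0 + D 1 1 + D 2 2) * x ^ 2,
    (D 2 2 - D 1 1) - (D 0 0 + D 1 1 + D 2 2) * x, -(D 0 0 + D 1 1 + D 2 2)]

/-- The coordinates as a linear map. -/
def coordL (x : Ω) : M3 Ω →ₗ[Ω] (Fin 3 → Ω) where
  toFun := coordE x
  map_add' := by
    intro A B
    funext i
    fin_cases i <;> simp [coordE] <;> ring
  map_smul' := by
    intro a A
    funext i
    fin_cases i <;> simp [coordE] <;> ring

lemma coordL_apply (x : Ω) (D : M3 Ω) : coordL x D = coordE x D := rfl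

/-- The coordinates determine the diagonal. -/
lemma coordE_spec [CharP Ω 3] (x : Ω) (D : M3 Ω) (r : Fin 3) :
    D r r = coordE x D 0 + coordE x D 1 * (x + cs r) + coordE x D 2 * (x + cs r) ^ 2 := by
  have h3 := three0 (Ω := Ω)
  simp only [coordE, Matrix.cons_val_zero, Matrix.cons_val_one, Matrix.cons_val]
  fin_cases r
  · simp only [Fin.zero_eta, cs_zero]
    linear_combination (D 0 0 + D 1 1 + D 2 2) * x ^ 2 * h3
  · simp only [Fin.mk_one, cs_one]
    linear_combination ((D 0 0 + D 1 1 + D 2 2) * x ^ 2 + (D 0 0 + D 1 1 + D 2 2) * x + D 1 1) * h3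
  · simp only [Fin.reduceFinMk, cs_two]
    linear_combination ((D 0 0 + D 1 1 + D 2 2) * x ^ 2 + 2 * (D 0 0 + D 1 1 + D 2 2) * x
      + D 0 0 + 2 * D 1 1 + D 2 2) * h3

/-- Uniqueness of the coordinates. -/
lemma coordE_unique [CharP Ω 3] (x : Ω) (D : M3 Ω) (a b g : Ω)
    (h : ∀ r, D r r = a + b * (x + cs r) + g * (x + cs r) ^ 2) : coordE x D = ![a, b, g] := by
  have h3 := three0 (Ω := Ω)
  have h0 := h 0
  have h1 := h 1
  have h2 := h 2
  rw [cs_zero] at h0
  rw [cs_one] at h1
  rw [cs_two] at h2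
  funext i
  fin_cases i
  · simp only [coordE, Matrix.cons_val_zero, Fin.zero_eta]
    rw [h0, h1, h2]
    linear_combination (-(a * x ^ 2) - b * x ^ 3 - b * x ^ 2 - g * x ^ 4 - 2 * g * x ^ 3
      - 2 * g * x ^ 2 - g * x) * h3
  · simp only [coordE, Matrix.cons_val_one, Matrix.cons_val_zero, Fin.mk_one]
    rw [h0, h1, h2]
    linear_combination (-(a * x) - b * x ^ 2 - b * x - g * x ^ 3 - 2 * g * x ^ 2
      - g * x + g) * h3
  · simp only [coordE, Matrix.cons_val, Fin.reduceFinMk]
    rw [h0, h1, h2]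
    linear_combination (-a - b * x - b - g * x ^ 2 - 2 * g * x - 2 * g) * h3

/-- The coordinates of rational values are in `L`. -/
lemma coord_mem [CharP Ω 3] {D : M3 Ω} (hD : D ∈ GE L x 0) (l : Fin 3) : coordE x D l ∈ L := by
  obtain ⟨-, a, ha, b, hb, g, hg, h⟩ := hD
  have h' : ∀ r, D r r = a + b * (x + cs r) + g * (x + cs r) ^ 2 := by
    intro r
    have := h r
    beta_reduce at this
    rwa [add_zero] at this
  rw [coordE_unique x D a b g h']
  fin_cases l
  · exact ha
  · exact hb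
  · exact hg

lemma PF_mem_GE [CharP Ω 3] (hx3 : x ^ 3 - x ∈ L) (c : Equiv.Perm (Fin m) → K)
    (d : Fin m → Fin 3) (f : Fin m → Fin 3 → Ω) (hf : ∀ i, f i ∈ RE L x) :
    PF c d f ∈ GE L x (∑ i, d i) :=
  evalML_GE hx3 c _ d fun i => hv_mem_GE (hf i)

/-- The shift of a diagonal or homogeneous matrix is conjugation by `yM`. -/
lemma yM_mul_hv (e : Fin 3) (v : Fin 3 → Ω) :
    yM * hv e v * yMᵀ = hv e fun r => v (r + 1) := by
  ext r s
  rw [Matrix.mul_apply]
  simp only [Hom.yM.mul_entry, Matrix.transpose_apply]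
  rw [Fin.sum_univ_three]
  simp only [hv_apply]
  fin_cases e <;> fin_cases r <;> fin_cases s <;> simp [yM]

end

end Pool.Agent.H74C3
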