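import Pool.Agent.Helper74.C3.Frame2

/-!
# Orders of matrices in characteristic three

`sh A = y A y⁻¹` is the simultaneous shift of the rows and columns, `Od n A` says that
`(sh - 1) ^ (n + 1) A = 0`. In characteristic three every matrix satisfies `Od 2 A`.
-/

open Matrix

namespace Pool.Agent.H74C3

open Pool.Agent.H24ML Pool.Agent.H88KL

universe u

section

variable {Ω : Type u} [Field Ω]

/-- The shift of rows and columns. -/
noncomputable def sh : M3 Ω →ₐ[Ω] M3 Ω :=
  (Matrix.reindexAlgEquiv Ω Ω (Equiv.addRight (1 : Fin 3)).symm).toAlgHom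

lemma sh_apply (A : M3 Ω) (r s : Fin 3) : sh A r s = A (r + 1) (s + 1) := rfl

/-- `Od n A`: the order of `A` is at most `n`. -/
def Od : ℕ → M3 Ω → Prop
  | 0, A => sh A = A
  | n + 1, A => Od n (sh A - A)

lemma Od.zero_mem : ∀ n : ℕ, Od n (0 : M3 Ω)
  | 0 => map_zero _
  | n + 1 => by
    change Od n (sh 0 - 0)
    rw [map_zero, sub_zero]
    exact Od.zero_mem n

lemma Od.add : ∀ (n : ℕ) {A B : M3 Ω}, Od n A → Od n B → Od n (A + B)
  | 0, A, B, hA, hB => by
    change sh (A + B) = A + B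
    rw [map_add, show sh A = A from hA, show sh B = B from hB]
  | n + 1, A, B, hA, hB => by
    change Od n (sh (A + B) - (A + B))
    have h := Od.add n (show Od n (sh A - A) from hA) (show Od n (sh B - B) from hB)
    have e : sh (A + B) - (A + B) = (sh A - A) + (sh B - B) := by rw [map_add]; abel
    rwa [e]

lemma Od.smul (a : Ω) : ∀ (n : ℕ) {A : M3 Ω}, Od n A → Od n (a • A)
  | 0, A, hA => by
    change sh (a • A) = a • A
    rw [map_smul, show sh A = A from hA]
  | n + 1, A, hA => by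
    change Od n (sh (a • A) - (a • A))
    rw [map_smul, ← smul_sub]
    exact Od.smul a n hA

lemma Od.sh : ∀ (n : ℕ) {A : M3 Ω}, Od n A → Od n (sh A)
  | 0, A, hA => by
    change H74C3.sh (H74C3.sh A) = H74C3.sh A
    rw [show H74C3.sh A = A from hA, show H74C3.sh A = A from hA]
  | n + 1, A, hA => by
    change Od n (H74C3.sh (H74C3.sh A) - H74C3.sh A)
    rw [← map_sub]
    exact Od.sh n hA

lemma Od.mul_inv {B : M3 Ω} (hB : H74C3.sh B = B) : ∀ (n : ℕ) {A : M3 Ω}, Od n A → Od n (A * B)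
  | 0, A, hA => by
    change H74C3.sh (A * B) = A * B
    rw [map_mul, show H74C3.sh A = A from hA, hB]
  | n + 1, A, hA => by
    change Od n (H74C3.sh (A * B) - A * B)
    rw [map_mul, hB, ← sub_mul]
    exact Od.mul_inv hB n hA

lemma sh_three (A : M3 Ω) : sh (sh (sh A)) = A := by
  ext r s
  simp only [sh_apply]
  fin_cases r <;> fin_cases s <;> rfl

lemma Od.two [CharP Ω 3] (A : M3 Ω) : Od 2 A := by
  change H74C3.sh (H74C3.sh (H74C3.sh A - A) - (H74C3.sh A - A))
    = H74C3.sh (H74C3.sh A - A) - (H74C3.sh A - A)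
  have h3 := three0 (Ω := Ω)
  simp only [map_sub, sh_three]
  ext r s
  simp only [Matrix.sub_apply]
  linear_combination (H74C3.sh A r s - H74C3.sh (H74C3.sh A) r s) * h3

lemma Od.ge_two [CharP Ω 3] : ∀ (n : ℕ) (A : M3 Ω), Od (n + 2) A
  | 0, A => Od.two A
  | n + 1, A => Od.ge_two n (H74C3.sh A - A)

/-- The powers of `y`. -/
def yp (e : Fin 3) : M3 Ω := fun r s => if s = r + e then 1 else 0

lemma yp_zero : (yp 0 : M3 Ω) = 1 := by
  ext r s
  fin_cases r <;> fin_cases s <;> simp [yp]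

lemma yp_one : (yp 1 : M3 Ω) = yM := by
  ext r s
  fin_cases r <;> fin_cases s <;> simp [yp, yM]

lemma yp_two : (yp 2 : M3 Ω) = yM * yM := by
  ext r s
  fin_cases r <;> fin_cases s <;> simp [yp, yM, Matrix.mul_apply, Fin.sum_univ_three]

lemma sh_yp (e : Fin 3) : sh (yp e : M3 Ω) = yp e := by
  ext r s
  rw [sh_apply]
  fin_cases e <;> fin_cases r <;> fin_cases s <;> simp [yp]

lemma y_mul (A : M3 Ω) : yM * A = sh A * yM := by
  ext r s
  rw [Matrix.mul_apply, Matrix.mul_apply, Fin.sum_univ_three, Fin.sum_univ_three]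
  simp only [sh_apply]
  fin_cases r <;> fin_cases s <;> simp [yM]

/-- Commutation with the powers of `y` lowers the order. -/
lemma Od.ad_yp (f : Fin 3) (n : ℕ) {A : M3 Ω} (hA : Od (n + 1) A) :
    Od n (yp f * A - A * yp f) := by
  have h1 : Od n (H74C3.sh A - A) := hA
  have hf : f = 0 ∨ f = 1 ∨ f = 2 := by fin_cases f <;> decide
  rcases hf with rfl | rfl | rfl
  · rw [yp_zero, one_mul, mul_one, sub_self]
    exact Od.zero_mem n
  · rw [yp_one, y_mul, ← sub_mul]
    exact Od.mul_inv (by rw [← yp_one]; exact sh_yp 1) n h1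
  · have e : yp 2 * A - A * yp 2 = (H74C3.sh (H74C3.sh A - A) + (H74C3.sh A - A)) * yp 2 := by
      rw [yp_two, Matrix.mul_assoc, y_mul A, ← Matrix.mul_assoc, y_mul (H74C3.sh A),
        Matrix.mul_assoc, ← sub_mul, map_sub]
      congr 1
      abel
    rw [e]
    exact Od.mul_inv (sh_yp 2) n (Od.add n (Od.sh n h1) h1)

lemma Od.ad_yp_zero (f : Fin 3) {A : M3 Ω} (hA : Od 0 A) : yp f * A - A * yp f = 0 := by
  have h1 : H74C3.sh A = A := hA
  have hf : f = 0 ∨ f = 1 ∨ f = 2 := by fin_cases f <;> decide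
  rcases hf with rfl | rfl | rfl
  · rw [yp_zero, one_mul, mul_one, sub_self]
  · rw [yp_one, y_mul, h1, sub_self]
  · rw [yp_two, Matrix.mul_assoc, y_mul A, ← Matrix.mul_assoc, h1, y_mul A, Matrix.mul_assoc, h1,
      sub_self]

/-- The matrices `X y ^ f`, `X = diag(0, 1, 2)`. -/
def Bm (f : Fin 3) : M3 Ω := fun r s => if s = r + f then cs r else 0

lemma Bm_hom (f : Fin 3) : Hom f (Bm f : M3 Ω) := by
  intro r s h
  simp [Bm, h]

lemma yp_hom (f : Fin 3) : Hom f (yp f : M3 Ω) := by
  intro r s h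
  simp [yp, h]

lemma sh_Bm [CharP Ω 3] (f : Fin 3) : sh (Bm f : M3 Ω) = Bm f + yp f := by
  ext r s
  rw [sh_apply, Matrix.add_apply]
  simp only [Bm, yp]
  have h : (s + 1 = r + 1 + f) ↔ s = r + f := by
    rw [show r + 1 + f = r + f + 1 by abel]
    exact add_left_inj 1
  by_cases hs : s = r + f
  · rw [if_pos (h.2 hs), if_pos hs, if_pos hs, cs_add, cs_one]
  · rw [if_neg (fun h' => hs (h.1 h')), if_neg hs, if_neg hs, add_zero]

/-- Commutation with `Bm f` does not raise the order. -/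
lemma Od.ad_Bm [CharP Ω 3] (f : Fin 3) : ∀ (n : ℕ) {A : M3 Ω}, Od n A →
    Od n (Bm f * A - A * Bm f)
  | 0, A, hA => by
    change H74C3.sh (Bm f * A - A * Bm f) = Bm f * A - A * Bm f
    have h1 : H74C3.sh A = A := hA
    have h2 := Od.ad_yp_zero f hA
    rw [map_sub, map_mul, map_mul, sh_Bm, h1, add_mul, mul_add]
    calc _ = (Bm f * A - A * Bm f) + (yp f * A - A * yp f) := by abel
      _ = _ := by rw [h2, add_zero]
  | n + 1, A, hA => by
    change Od n (H74C3.sh (Bm f * A - A * Bm f) - (Bm f * A - A * Bm f))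
    have h1 : Od n (H74C3.sh A - A) := hA
    have h2 := Od.ad_Bm f n h1
    have h3 := Od.ad_yp f n (Od.sh (n + 1) hA)
    have e : H74C3.sh (Bm f * A - A * Bm f) - (Bm f * A - A * Bm f)
        = (Bm f * (H74C3.sh A - A) - (H74C3.sh A - A) * Bm f)
          + (yp f * H74C3.sh A - H74C3.sh A * yp f) := by
      rw [map_sub, map_mul, map_mul, sh_Bm]
      noncomm_ring
    rw [e]
    exact Od.add n h2 h3

lemma sh_comp (e : Fin 3) (A : M3 Ω) : sh (comp e A) = comp e (sh A) := by
  ext r s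
  rw [sh_apply]
  simp only [comp, sh_apply]
  have h : (s + 1 = r + 1 + e) ↔ s = r + e := by
    rw [show r + 1 + e = r + e + 1 by abel]
    exact add_left_inj 1
  simp only [h]

lemma comp_sub (e : Fin 3) (A B : M3 Ω) : comp e (A - B) = comp e A - comp e B := by
  ext r s
  simp only [comp, Matrix.sub_apply]
  split_ifs
  · rfl
  · rw [sub_zero]

lemma Od.comp (e : Fin 3) : ∀ (n : ℕ) {A : M3 Ω}, Od n A → Od n (comp e A)
  | 0, A, hA => by
    change H74C3.sh (H74C3.comp e A) = H74C3.comp e A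
    rw [sh_comp, show H74C3.sh A = A from hA]
  | n + 1, A, hA => by
    change Od n (H74C3.sh (H74C3.comp e A) - H74C3.comp e A)
    rw [sh_comp, ← comp_sub]
    exact Od.comp e n hA

/-- Shift invariant homogeneous matrices. -/
lemma inv_hom {e : Fin 3} {A : M3 Ω} (h : sh A = A) (hA : Hom e A) : A = A 0 e • yp e := by
  have h1 : ∀ r s, A (r + 1) (s + 1) = A r s := fun r s => congrFun (congrFun h r) s
  have h2 : ∀ r, A r (r + e) = A 0 e := by
    intro r
    fin_cases r
    · simp
    · have := h1 0 e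
      rw [← this]
      simp [add_comm]
    · have h3 := h1 1 (e + 1)
      have h4 := h1 0 e
      rw [← h4]
      rw [show (0 : Fin 3) + 1 = 1 by decide, ← h3]
      congr 1
      fin_cases e <;> decide
  ext r s
  rw [Matrix.smul_apply]
  simp only [yp, smul_eq_mul]
  by_cases hs : s = r + e
  · rw [if_pos hs, mul_one, hs, h2]
  · rw [if_neg hs, mul_zero, hA r s hs]

/-- Shift invariant matrices. -/
lemma inv_eq {A : M3 Ω} (h : sh A = A) :
    A = A 0 0 • (1 : M3 Ω) + A 0 1 • yM + A 0 2 • (yM * yM) := by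
  have h1 : ∀ r s, A (r + 1) (s + 1) = A r s := fun r s => congrFun (congrFun h r) s
  have a1 : A 1 1 = A 0 0 := h1 0 0
  have a2 : A 2 2 = A 1 1 := h1 1 1
  have b1 : A 1 2 = A 0 1 := h1 0 1
  have b2 : A 2 0 = A 1 2 := h1 1 2
  have c1 : A 1 0 = A 0 2 := h1 0 2
  have c2 : A 2 1 = A 1 0 := h1 1 0
  ext r s
  fin_cases r <;> fin_cases s <;>
    simp [yM, a1, a2, b1, b2, c1, c2]

/-- The commutator of `Bm f` and `yp e`. -/
lemma ad_Bm_yp [CharP Ω 3] (f e : Fin 3) :
    (Bm f * yp e - yp e * Bm f : M3 Ω) = (-(cs e) : Ω) • yp (e + f) := by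
  have h3 := three0 (Ω := Ω)
  ext r s
  rw [Matrix.sub_apply, Matrix.smul_apply, Matrix.mul_apply, Matrix.mul_apply,
    Fin.sum_univ_three, Fin.sum_univ_three]
  simp only [Bm, yp, smul_eq_mul]
  fin_cases f <;> fin_cases e <;> fin_cases r <;> fin_cases s <;>
    simp [cs] <;> first | ring1 | linear_combination h3

end

section

variable {K Ω : Type u} [Field K] [Field Ω] [Algebra K Ω] {m : ℕ}

/-- The scalar matrices. -/
def Sc (A : M3 Ω) : Prop := A ∈ Submodule.span Ω {(1 : M3 Ω)}

lemma Sc_iff {A : M3 Ω} : Sc A ↔ ∃ a : Ω, a • (1 : M3 Ω) = A := Submodule.mem_span_singleton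

/-- **(D0)** If all values with smaller orders are scalar, then the values are shift invariant. -/
lemma od_zero [CharP Ω 3] (c : Equiv.Perm (Fin m) → K) (n : Fin m → ℕ)
    (H : ∀ i, 0 < n i → ∀ z : Fin m → M3 Ω, (∀ j, j ≠ i → Od (n j) (z j)) → Od (n i - 1) (z i) →
      Sc (evalML Ω c z)) (z : Fin m → M3 Ω) (hz : ∀ j, Od (n j) (z j)) :
    sh (evalML Ω c z) = evalML Ω c z := by
  have h3 := three0 (Ω := Ω)
  have key : ∀ f : Fin 3, Sc (yp f * evalML Ω c z - evalML Ω c z * yp f) := by
    intro f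
    rw [← der_evalML]
    refine Submodule.sum_mem _ fun k _ => ?_
    rcases Nat.eq_zero_or_pos (n k) with h0 | h0
    · have h1 := hz k
      rw [h0] at h1
      rw [Od.ad_yp_zero f h1, MultilinearMap.map_update_zero]
      exact Submodule.zero_mem _
    · refine H k h0 _ ?_ ?_
      · intro j hj
        rw [Function.update_of_ne hj]
        exact hz j
      · rw [Function.update_self]
        apply Od.ad_yp
        rw [Nat.sub_add_cancel h0]
        exact hz k
  set W := evalML Ω c z with hW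
  obtain ⟨a, ha⟩ := Sc_iff.1 (key 1)
  obtain ⟨b, hb⟩ := Sc_iff.1 (key 2)
  rw [yp_one, y_mul, ← sub_mul] at ha
  -- `sh W - W = a y⁻¹`
  have hy : (yM : M3 Ω) * (yM * yM) = 1 := by
    ext r s
    fin_cases r <;> fin_cases s <;> simp [yM, Matrix.mul_apply, Fin.sum_univ_three]
  have h1 : sh W - W = a • (yM * yM) := by
    calc sh W - W = (sh W - W) * (yM * (yM * yM)) := by rw [hy, mul_one]
      _ = ((sh W - W) * yM) * (yM * yM) := by rw [Matrix.mul_assoc]
      _ = a • (yM * yM) := by rw [← ha, smul_mul_assoc, one_mul]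
  have h2 : yp 2 * W - W * yp 2 = (sh (sh W - W) + (sh W - W)) * yp 2 := by
    rw [yp_two, Matrix.mul_assoc, y_mul W, ← Matrix.mul_assoc, y_mul (sh W),
      Matrix.mul_assoc, ← sub_mul, map_sub]
    congr 1
    abel
  rw [h2, h1, map_smul, ← yp_two, sh_yp] at hb
  have h4 := congrFun (congrFun hb 0) 1
  have h5 := congrFun (congrFun hb 0) 1
  simp [yp, Matrix.mul_apply, Fin.sum_univ_three] at h5
  have ha0 : a = 0 := by
    first
      | linear_combination h3 * a - h5
      | linear_combination h3 * a + h5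
  rw [ha0, zero_smul] at h1
  exact sub_eq_zero.1 h1

/-- Minimal orders. -/
lemma exists_min [CharP Ω 3] (bad : M3 Ω → Prop) (c : Equiv.Perm (Fin m) → K)
    (h : ∃ z : Fin m → M3 Ω, bad (evalML Ω c z)) :
    ∃ n : Fin m → ℕ, (∃ z : Fin m → M3 Ω, (∀ j, Od (n j) (z j)) ∧ bad (evalML Ω c z)) ∧
      ∀ i, 0 < n i → ∀ z : Fin m → M3 Ω, (∀ j, j ≠ i → Od (n j) (z j)) → Od (n i - 1) (z i) →
        ¬ bad (evalML Ω c z) := by
  classical
  have hex : ∃ N : ℕ, ∃ n : Fin m → ℕ, ∑ i, n i = N ∧
      ∃ z : Fin m → M3 Ω, (∀ j, Od (n j) (z j)) ∧ bad (evalML Ω c z) := by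
    obtain ⟨z, hz⟩ := h
    exact ⟨_, fun _ => 2, rfl, z, fun j => Od.two _, hz⟩
  obtain ⟨n, hn, z, hz, hb⟩ := Nat.find_spec hex
  refine ⟨n, ⟨z, hz, hb⟩, fun i hi z' hz' hzi hbad => ?_⟩
  have hlt : ∑ j, Function.update n i (n i - 1) j < Nat.find hex := by
    rw [← hn]
    apply Finset.sum_lt_sum
    · intro j _
      by_cases hj : j = i
      · subst hj
        rw [Function.update_self]
        exact Nat.sub_le _ _
      · rw [Function.update_of_ne hj]
    · exact ⟨i, Finset.mem_univ i, by rw [Function.update_self]; omega⟩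
  refine Nat.find_min hex hlt ⟨Function.update n i (n i - 1), rfl, z', ?_, hbad⟩
  intro j
  by_cases hj : j = i
  · subst hj
    rw [Function.update_self]
    exact hzi
  · rw [Function.update_of_ne hj]
    exact hz' j hj

/-- Expansion in homogeneous components. -/
lemma expand (c : Equiv.Perm (Fin m) → K) (z : Fin m → M3 Ω) :
    evalML Ω c z = ∑ d : Fin m → Fin 3, evalML Ω c fun i => comp (d i) (z i) := by
  have h : z = fun i => ∑ e : Fin 3, comp e (z i) := by
    funext i
    rw [Fin.sum_univ_three, sum_comp]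
  conv_lhs => rw [h]
  rw [MultilinearMap.map_sum]

/-- The slot changes of a homogeneous tuple with value a multiple of `yp e`, `e ≠ 0`. -/
lemma slot_change [CharP Ω 3] (c : Equiv.Perm (Fin m) → K) (n : Fin m → ℕ)
    (hinv : ∀ z : Fin m → M3 Ω, (∀ j, Od (n j) (z j)) → sh (evalML Ω c z) = evalML Ω c z)
    (d : Fin m → Fin 3) (z : Fin m → M3 Ω) (hz : ∀ j, Od (n j) (z j)) (hd : ∀ j, Hom (d j) (z j))
    (he : ∑ j, d j ≠ 0) (hne : evalML Ω c z ≠ 0) (g : Fin 3) :
    ∃ (z' : Fin m → M3 Ω) (w : Ω), (∀ j, Od (n j) (z' j)) ∧ w ≠ 0 ∧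
      evalML Ω c z' = w • yp g := by
  have h0 := inv_hom (hinv z hz) (evalML_hom c z d hd)
  set e := ∑ j, d j with hedef
  set w := evalML Ω c z 0 e with hwdef
  have hw : w ≠ 0 := by
    intro h
    rw [h, zero_smul] at h0
    exact hne h0
  have hce : (cs e : Ω) ≠ 0 := by
    have h3 := three0 (Ω := Ω)
    have he' : e = 1 ∨ e = 2 := by
      revert he
      generalize e = e'
      fin_cases e' <;> decide
    rcases he' with h | h
    · rw [h, cs_one]; exact one_ne_zero
    · rw [h, cs_two]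
      intro h2
      exact one_ne_zero (α := Ω) (by linear_combination h3 - h2)
  set f := g - e with hfdef
  have hder := der_evalML c (Bm f) z
  have hnz : ∑ k, evalML Ω c (Function.update z k (Bm f * z k - z k * Bm f)) ≠ 0 := by
    rw [hder, h0, mul_smul_comm, smul_mul_assoc, ← smul_sub, ad_Bm_yp, smul_smul]
    intro h
    have h1 := congrFun (congrFun h 0) (e + f)
    rw [Matrix.smul_apply] at h1
    simp only [yp, zero_add, if_true, smul_eq_mul, mul_one, Matrix.zero_apply] at h1
    exact (mul_ne_zero hw (neg_ne_zero.2 hce)) h1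
  obtain ⟨k, -, hk⟩ := Finset.exists_ne_zero_of_sum_ne_zero hnz
  set z' := Function.update z k (Bm f * z k - z k * Bm f) with hz'def
  have hz' : ∀ j, Od (n j) (z' j) := by
    intro j
    by_cases hj : j = k
    · subst hj
      rw [hz'def, Function.update_self]
      exact Od.ad_Bm f _ (hz j)
    · rw [hz'def, Function.update_of_ne hj]
      exact hz j
  have hd' : ∀ j, Hom (Function.update d k (d k + f) j) (z' j) := by
    intro j
    by_cases hj : j = k
    · subst hj
      rw [hz'def, Function.update_self, Function.update_self]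
      refine Hom.sub ?_ ?_
      · rw [add_comm]
        exact (Bm_hom f).mul (hd j)
      · exact (hd j).mul (Bm_hom f)
    · rw [hz'def, Function.update_of_ne hj, Function.update_of_ne hj]
      exact hd j
  have hsum : ∑ j, Function.update d k (d k + f) j = g := by
    rw [Finset.sum_update_of_mem (Finset.mem_univ k)]
    have h1 : ∑ i, d i = d k + ∑ i ∈ Finset.univ \ {k}, d i := by
      rw [← Finset.sum_update_of_mem (Finset.mem_univ k), Function.update_eq_self]
    rw [← hedef] at h1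
    calc d k + f + ∑ i ∈ Finset.univ \ {k}, d i = (d k + ∑ i ∈ Finset.univ \ {k}, d i) + f := by
          abel
      _ = g := by rw [← h1, hfdef]; abel
  have h4 := inv_hom (hinv z' hz') (evalML_hom c z' _ hd')
  rw [hsum] at h4
  refine ⟨z', evalML Ω c z' 0 g, hz', ?_, h4⟩
  intro h
  rw [h, zero_smul] at h4
  exact hk h4

end

end Pool.Agent.H74C3
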